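import Pool.Agent.H75.CE.Extend

/-!
The base map `w0 ℓ z = exp (ℓ ψ(Re z / Im z)) z` and its dilatation.
-/

set_option autoImplicit false

open UpperHalfPlane Matrix Filter
open scoped MatrixGroups Topology

noncomputable section

namespace Pool.Agent.H75.CE

/-- The base map: the identity on `Re z ≤ 0`, multiplication by `exp ℓ` on `Re z ≥ Im z`. -/
def w0 (ℓ : ℝ) (z : ℍ) : ℍ :=
  (⟨Real.exp (ℓ * Real.smoothTransition (z.re / z.im)), Real.exp_pos _⟩ : {a : ℝ // 0 < a}) • z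

theorem w0_of_nonpos (ℓ : ℝ) {z : ℍ} (h : z.re ≤ 0) :
    w0 ℓ z = z := by
  apply UpperHalfPlane.ext
  rw [w0, coe_pos_real_smul]
  have h1 : Real.smoothTransition (z.re / z.im) = 0 :=
    Real.smoothTransition.zero_of_nonpos (div_nonpos_of_nonpos_of_nonneg h z.im_pos.le)
  simp [h1]

theorem w0_of_le (ℓ : ℝ) {z : ℍ} (h : z.im ≤ z.re) :
    w0 ℓ z = (⟨Real.exp ℓ, Real.exp_pos _⟩ : {a : ℝ // 0 < a}) • z := by
  apply UpperHalfPlane.ext
  rw [w0, coe_pos_real_smul, coe_pos_real_smul]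
  have h1 : Real.smoothTransition (z.re / z.im) = 1 :=
    Real.smoothTransition.one_of_one_le ((one_le_div z.im_pos).mpr h)
  simp [h1]

theorem w0_neg_w0 (ℓ : ℝ) (z : ℍ) : w0 (-ℓ) (w0 ℓ z) = z := by
  have h1 : (w0 ℓ z).re / (w0 ℓ z).im = z.re / z.im := by
    simp only [w0, pos_real_re, pos_real_im]
    rw [mul_div_mul_left _ _ (Real.exp_pos _).ne']
  apply UpperHalfPlane.ext
  have h2 : ((w0 (-ℓ) (w0 ℓ z) : ℍ) : ℂ) =
      (Real.exp (-ℓ * Real.smoothTransition ((w0 ℓ z).re / (w0 ℓ z).im)) : ℝ) • ((w0 ℓ z : ℍ) : ℂ) := by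
    conv_lhs => rw [w0]
    rw [coe_pos_real_smul]
  rw [h2, h1]
  conv_lhs => rw [w0]
  rw [coe_pos_real_smul, smul_smul, ← Real.exp_add]
  simp

theorem exists_bound_smoothTransition :
    ∃ M : ℝ, 0 ≤ M ∧ ∀ u : ℝ, |deriv Real.smoothTransition u| * (1 + u ^ 2) ≤ M := by
  have hc : Continuous fun u : ℝ => |deriv Real.smoothTransition u| * (1 + u ^ 2) := by
    have h1 : Continuous (deriv Real.smoothTransition) :=
      (Real.smoothTransition.contDiff (n := 1)).continuous_deriv (by simp)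
    fun_prop
  obtain ⟨u0, -, hu0⟩ := (isCompact_Icc (a := (0 : ℝ)) (b := 1)).exists_isMaxOn
    ⟨0, by simp⟩ hc.continuousOn
  refine ⟨|deriv Real.smoothTransition u0| * (1 + u0 ^ 2), by positivity, fun u => ?_⟩
  by_cases h0 : u < 0
  · have : deriv Real.smoothTransition u = 0 := by
      have h : Real.smoothTransition =ᶠ[𝓝 u] fun _ => 0 := by
        filter_upwards [Iio_mem_nhds h0] with v hv
        exact Real.smoothTransition.zero_of_nonpos (le_of_lt hv)
      rw [h.deriv_eq]; simp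
    rw [this]; simp; positivity
  · by_cases h1 : 1 < u
    · have : deriv Real.smoothTransition u = 0 := by
        have h : Real.smoothTransition =ᶠ[𝓝 u] fun _ => 1 := by
          filter_upwards [Ioi_mem_nhds h1] with v hv
          exact Real.smoothTransition.one_of_one_le (le_of_lt hv)
        rw [h.deriv_eq]; simp
      rw [this]; simp; positivity
    · exact hu0 ⟨not_lt.mp h0, not_lt.mp h1⟩

/-- The base map as a function on `ℂ`. -/
def F0 (ℓ : ℝ) (ζ : ℂ) : ℂ := Real.exp (ℓ * Real.smoothTransition (ζ.re / ζ.im)) • ζ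

theorem toC_w0 (ℓ : ℝ) (z : ℍ) : toC (w0 ℓ) =ᶠ[𝓝 (z : ℂ)] F0 ℓ := by
  rw [EventuallyEq, ← isOpenEmbedding_coe.map_nhds_eq, eventually_map]
  filter_upwards with y
  rw [toC_coe, w0, coe_pos_real_smul, F0]
  rfl

theorem contDiffAt_F0 (ℓ : ℝ) (z : ℍ) : ContDiffAt ℝ 1 (F0 ℓ) (z : ℂ) := by
  have h1 : ContDiffAt ℝ 1 (fun ζ : ℂ => ζ.re / ζ.im) (z : ℂ) := by
    apply ContDiffAt.div
    · exact Complex.reCLM.contDiff.contDiffAt
    · exact Complex.imCLM.contDiff.contDiffAt
    · exact z.im_pos.ne'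
  have h2 : ContDiffAt ℝ 1 (fun ζ : ℂ => Real.exp (ℓ * Real.smoothTransition (ζ.re / ζ.im))) (z : ℂ) := by
    apply ContDiffAt.exp
    apply ContDiffAt.mul contDiffAt_const
    exact (Real.smoothTransition.contDiff (n := 1)).contDiffAt.comp (z : ℂ) h1
  exact h2.smul contDiffAt_id

theorem hasFDerivAt_F0 (ℓ : ℝ) (z : ℍ) :
    ∃ L : ℂ →L[ℝ] ℂ, HasFDerivAt (F0 ℓ) L (z : ℂ) ∧
      let c := Real.exp (ℓ * Real.smoothTransition (z.re / z.im))
      let p := ℓ * deriv Real.smoothTransition (z.re / z.im)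
      L 1 = c + (c * p / z.im : ℝ) * (z : ℂ) ∧
      L Complex.I = c * Complex.I - (c * p * z.re / z.im ^ 2 : ℝ) * (z : ℂ) := by
  have hy := z.im_pos
  have h1 : HasFDerivAt (fun ζ : ℂ => ζ.re / ζ.im)
      ((z.im ^ 2)⁻¹ • (z.im • Complex.reCLM - z.re • Complex.imCLM)) (z : ℂ) := by
    have h := (Complex.reCLM.hasFDerivAt (x := (z : ℂ))).mul
      ((hasDerivAt_inv hy.ne').comp_hasFDerivAt_of_eq (z : ℂ)
        (Complex.imCLM.hasFDerivAt (x := (z : ℂ))) rfl)
    convert! h using 1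
    ext v
    simp
    field_simp
    ring
  have h2 : HasDerivAt Real.smoothTransition (deriv Real.smoothTransition (z.re / z.im))
      (z.re / z.im) :=
    (((Real.smoothTransition.contDiff (n := 1)).differentiable (by simp)) _).hasDerivAt
  have h3 := h2.comp_hasFDerivAt_of_eq (z : ℂ) h1 rfl
  have h4 := (h3.const_mul ℓ).exp
  have h5 := h4.smul (hasFDerivAt_id (z : ℂ))
  refine ⟨_, h5, ?_, ?_⟩
  · simp only [_root_.add_apply, ContinuousLinearMap.smulRight_apply, Complex.reCLM_apply, Complex.imCLM_apply,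
      _root_.sub_apply, _root_.smul_apply, Complex.one_re, Complex.one_im, smul_eq_mul,
      Complex.real_smul, Function.comp_apply, id_eq, ContinuousLinearMap.id_apply]
    push_cast
    have hyC : (z.im : ℂ) ≠ 0 := by exact_mod_cast hy.ne'
    rw [show (z : ℂ).re = z.re from rfl, show (z : ℂ).im = z.im from rfl]
    field_simp
    ring
  · simp only [_root_.add_apply, ContinuousLinearMap.smulRight_apply, Complex.reCLM_apply, Complex.imCLM_apply,
      _root_.sub_apply, _root_.smul_apply, Complex.I_re, Complex.I_im, smul_eq_mul,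
      Complex.real_smul, Function.comp_apply, id_eq, ContinuousLinearMap.id_apply]
    push_cast
    have hyC : (z.im : ℂ) ≠ 0 := by exact_mod_cast hy.ne'
    rw [show (z : ℂ).re = z.re from rfl, show (z : ℂ).im = z.im from rfl]
    field_simp
    ring

/-- The base map is good with a uniform constant. -/
theorem good_w0 (ℓ : ℝ) : ∃ k : ℝ, 0 ≤ k ∧ k < 1 ∧ ∀ z, Good (w0 ℓ) k z := by
  obtain ⟨M, hM0, hM⟩ := exists_bound_smoothTransition
  set Bm := |ℓ| * M / 2 with hBm
  have hBm0 : 0 ≤ Bm := by positivity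
  have hs0 : 0 < √(1 + Bm ^ 2) := by positivity
  refine ⟨Bm / √(1 + Bm ^ 2), by positivity, ?_, fun z => ⟨?_, ?_⟩⟩
  · rw [div_lt_one hs0]
    calc Bm = √(Bm ^ 2) := (Real.sqrt_sq hBm0).symm
      _ < √(1 + Bm ^ 2) := Real.sqrt_lt_sqrt (by positivity) (by linarith)
  · exact (contDiffAt_F0 ℓ z).congr_of_eventuallyEq (toC_w0 ℓ z)
  · obtain ⟨L, hL, hL1, hLI⟩ := hasFDerivAt_F0 ℓ z
    set c := Real.exp (ℓ * Real.smoothTransition (z.re / z.im)) with hc
    set p := ℓ * deriv Real.smoothTransition (z.re / z.im) with hp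
    have hc0 : 0 < c := Real.exp_pos _
    have hy := z.im_pos
    have hfd : fderiv ℝ (toC (w0 ℓ)) (z : ℂ) = L := by
      rw [(toC_w0 ℓ z).fderiv_eq (𝕜 := ℝ)]
      exact hL.fderiv
    have hI : Complex.I * Complex.I = -1 := Complex.I_mul_I
    have hz : (z : ℂ) = (z.re : ℂ) + z.im * Complex.I := (Complex.re_add_im (z : ℂ)).symm
    have hyC : (z.im : ℂ) ≠ 0 := by exact_mod_cast hy.ne'
    set B := p * (z.re ^ 2 + z.im ^ 2) / (2 * z.im ^ 2) with hB
    have e1 : dz (toC (w0 ℓ)) (z : ℂ) = (c : ℂ) * (1 + B * Complex.I) := by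
      unfold dz
      rw [hfd, hL1, hLI, hB, hz]
      push_cast
      field_simp
      linear_combination (-(c : ℂ) * z.im ^ 2 + (c : ℂ) * p * z.re * z.im) * hI
    have e2 : dzbar (toC (w0 ℓ)) (z : ℂ) =
        (c * p / (2 * z.im ^ 2) : ℝ) * ((z : ℂ) * ((z.im : ℂ) - Complex.I * z.re)) := by
      unfold dzbar
      rw [hfd, hL1, hLI, hz]
      push_cast
      field_simp
      linear_combination (c : ℂ) * z.im ^ 2 * hI
    have n1 : ‖dz (toC (w0 ℓ)) (z : ℂ)‖ = c * √(1 + B ^ 2) := by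
      rw [e1, norm_mul, Complex.norm_real, Real.norm_of_nonneg hc0.le]
      congr 1
      rw [show (1 : ℂ) + B * Complex.I = ((1 : ℝ) : ℂ) + (B : ℂ) * Complex.I by simp,
        Complex.norm_add_mul_I]
      simp
    have n2 : ‖dzbar (toC (w0 ℓ)) (z : ℂ)‖ = c * |B| := by
      rw [e2, norm_mul, norm_mul, Complex.norm_real]
      have h1 : ‖(z.im : ℂ) - Complex.I * z.re‖ = ‖(z : ℂ)‖ := by
        have : (z.im : ℂ) - Complex.I * z.re = -Complex.I * (z : ℂ) := by
          rw [hz]; linear_combination (z.im : ℂ) * hI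
        rw [this, norm_mul]; simp
      rw [h1, ← sq, ← Complex.normSq_eq_norm_sq, Complex.normSq_apply]
      have h2 : (z : ℂ).re = z.re := rfl
      have h3 : (z : ℂ).im = z.im := rfl
      have h4 : c * |B| = |c * B| := by rw [abs_mul, abs_of_pos hc0]
      have h5 : |c * p / (2 * z.im ^ 2)| * (z.re * z.re + z.im * z.im) =
          |c * p / (2 * z.im ^ 2) * (z.re * z.re + z.im * z.im)| := by
        rw [abs_mul, abs_of_nonneg (add_nonneg (mul_self_nonneg z.re) (mul_self_nonneg z.im))]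
      rw [h2, h3, h4, Real.norm_eq_abs, h5, hB]
      congr 1
      ring
    have hBB : |B| ≤ Bm := by
      have h1 := hM (z.re / z.im)
      have h2 : |B| = |ℓ| * (|deriv Real.smoothTransition (z.re / z.im)| *
          (1 + (z.re / z.im) ^ 2)) / 2 := by
        rw [hB, hp, abs_div, abs_mul, abs_mul, abs_of_pos (show 0 < 2 * z.im ^ 2 by positivity),
          abs_of_nonneg (show 0 ≤ z.re ^ 2 + z.im ^ 2 by positivity)]
        field_simp
        ring
      rw [h2, hBm]
      gcongr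
    rw [n1, n2]
    have h3 : |B| ≤ Bm / √(1 + Bm ^ 2) * √(1 + B ^ 2) := by
      rw [div_mul_eq_mul_div, le_div_iff₀ hs0]
      have h4 : |B| * √(1 + Bm ^ 2) = √(B ^ 2 * (1 + Bm ^ 2)) := by
        rw [Real.sqrt_mul (by positivity), Real.sqrt_sq_eq_abs]
      have h5 : Bm * √(1 + B ^ 2) = √(Bm ^ 2 * (1 + B ^ 2)) := by
        rw [Real.sqrt_mul (by positivity), Real.sqrt_sq hBm0]
      rw [h4, h5]
      apply Real.sqrt_le_sqrt
      have h6 : B ^ 2 ≤ Bm ^ 2 := by
        rw [← sq_abs B]; gcongr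
      nlinarith
    calc c * |B| ≤ c * (Bm / √(1 + Bm ^ 2) * √(1 + B ^ 2)) := by gcongr
      _ = _ := by ring

end Pool.Agent.H75.CE
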