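import Pool.Agent.H75.CE.Base

/-!
Pairs of configurations related by a base map; the resulting equivariant homeomorphism is
quasiconformal.
-/

set_option autoImplicit false

open UpperHalfPlane Matrix Filter MeasureTheory
open scoped MatrixGroups Topology

noncomputable section

namespace Pool.Agent.H75.CE

/-- Two configurations related by a base map which is a scaling near every closed disc. -/
structure Pair where
  C : Config
  C' : Config
  μ : ℕ → {a : ℝ // 0 < a}
  hx : ∀ j, C'.x j = (μ j : ℝ) * C.x j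
  hr : ∀ j, C'.r j = (μ j : ℝ) * C.r j
  f : ℍ → ℍ
  hf : ∀ j z, C.inC j z → ∀ᶠ y in 𝓝 z, f y = μ j • y
  k : ℝ
  good : ∀ z, Good f k z

namespace Pair

variable (p : Pair)

theorem scal (j : ℕ) (z : ℍ) : p.C'.t j • (p.μ j • z) = p.μ j • (p.C.t j • z) := by
  apply UpperHalfPlane.ext
  have h1 : ((p.C'.t j • (p.μ j • z) : ℍ) : ℂ) =
      p.C'.x j - (p.C'.r j : ℂ) ^ 2 / (((p.μ j • z : ℍ) : ℂ) - p.C'.x j) := coe_ht_smul _ _ _ _
  have h2 : ((p.C.t j • z : ℍ) : ℂ) =
      p.C.x j - (p.C.r j : ℂ) ^ 2 / ((z : ℂ) - p.C.x j) := coe_ht_smul _ _ _ _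
  rw [h1, coe_pos_real_smul, coe_pos_real_smul, h2, p.hx, p.hr]
  have h3 := sub_real_ne_zero z (p.C.x j)
  have h4 : ((p.μ j : ℝ) : ℂ) ≠ 0 := by exact_mod_cast (p.μ j).2.ne'
  simp only [Complex.real_smul]
  push_cast
  have h5 : ((p.μ j : ℝ) : ℂ) * (z : ℂ) - (p.μ j : ℝ) * (p.C.x j : ℂ) =
      (p.μ j : ℝ) * ((z : ℂ) - p.C.x j) := by ring
  rw [h5]
  field_simp

theorem f_eq {j : ℕ} {z : ℍ} (h : p.C.inC j z) : p.f z = p.μ j • z := (p.hf j z h).self_of_nhds

/-- The equivariant extension. -/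
def E : ℍ → ℍ := p.C.ext (fun j z => p.C'.t j • z) p.f

theorem E_equiv (j : ℕ) (z : ℍ) : p.E (p.C.t j • z) = p.C'.t j • p.E z := by
  apply Config.ext_equiv (s := fun j z => p.C'.t j • z)
  · intro j z; exact Config.tt j z
  · intro j z h1 h2
    rw [p.f_eq h1, p.f_eq (Config.inC_t.mpr h2)]
    exact (p.scal j z).symm

theorem E_of_D {z : ℍ} (hz : z ∈ p.C.D) : p.E z = p.f z := Config.ext_of_D hz

theorem E_of_inO {j : ℕ} {z : ℍ} (hz : p.C.inO j z) : p.E z = p.C'.t j • p.E (p.C.t j • z) :=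
  Config.ext_of_inO hz

/-- Near points of the fundamental domain the extension agrees with the base map. -/
theorem E_near {z : ℍ} (hz : z ∈ p.C.D) : ∀ᶠ y in 𝓝 z, p.E y = p.f y := by
  by_cases h : ∃ j, p.C.inC j z
  · obtain ⟨j, hj⟩ := h
    have hj' : p.C.inC j (p.C.t j • z) := Config.inC_t.mpr (hz j)
    have h1 := Config.loc (C := p.C) z
    have h2 := Config.loc (C := p.C) (p.C.t j • z)
    have h3 := p.hf j z hj
    have h4 := p.hf j _ hj'
    have hcont : Tendsto (fun y : ℍ => p.C.t j • y) (𝓝 z) (𝓝 (p.C.t j • z)) :=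
      (continuous_const_smul (p.C.t j)).continuousAt
    filter_upwards [h1, hcont.eventually h2, h3, hcont.eventually h4] with y g1 g2 g3 g4
    by_cases hy : y ∈ p.C.D
    · exact p.E_of_D hy
    · simp only [Config.D, Set.mem_ofPred_eq, not_forall, not_not] at hy
      obtain ⟨l, hl⟩ := hy
      have hlj : l = j := Config.eq_of_inC (g1 l hl) hj
      subst hlj
      have hD : p.C.t l • y ∈ p.C.D := by
        intro m hm
        have hml : m = l := Config.eq_of_inC (g2 m hm) hj'
        subst hml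
        exact (Config.inO_t.mp hm) hl.inC
      rw [p.E_of_inO hl, p.E_of_D hD, g4, p.scal, Config.tt, g3]
  · push Not at h
    filter_upwards [Config.loc (C := p.C) z] with y hy
    apply p.E_of_D
    intro l hl
    exact h l (hy l hl)

theorem E_good (z : ℍ) : Good p.E p.k z := by
  induction z using p.C.wf.induction with
  | _ z ih =>
    by_cases hz : z ∈ p.C.D
    · exact (p.good z).congr (p.E_near hz)
    · simp only [Config.D, Set.mem_ofPred_eq, not_forall, not_not] at hz
      obtain ⟨j, hj⟩ := hz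
      exact good_step (p.E_equiv j) (ih _ ⟨j, hj, rfl⟩)

theorem E_continuous : Continuous p.E :=
  continuous_iff_continuousAt.mpr fun z => (p.E_good z).continuousAt

/-- Composition with the reversed pair. -/
theorem E_comp (q : Pair) (h1 : q.C = p.C') (h2 : q.C' = p.C)
    (h3 : ∀ z, q.f (p.f z) = z) (z : ℍ) : q.E (p.E z) = z := by
  induction z using p.C.wf.induction with
  | _ z ih =>
    by_cases hz : z ∈ p.C.D
    · rw [p.E_of_D hz, q.E_of_D, h3]
      intro j hj
      -- `f z` in the open disc `D'_j` would force `z` in `D_j`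
      rw [h1] at hj
      set u : ℍ := (p.μ j)⁻¹ • p.f z with hu
      have hfu : p.μ j • u = p.f z := by rw [hu, smul_inv_smul]
      have huO : p.C.inO j u := by
        rw [Config.inO_iff] at hj ⊢
        rw [← hfu, coe_pos_real_smul, p.hx, p.hr, Complex.real_smul] at hj
        push_cast at hj
        rw [← mul_sub, norm_mul, Complex.norm_real, Real.norm_of_nonneg (p.μ j).2.le] at hj
        exact lt_of_mul_lt_mul_left hj (p.μ j).2.le
      have hfu2 : p.f u = p.f z := by rw [p.f_eq huO.inC, hfu]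
      have huz : u = z := by rw [← h3 u, hfu2, h3]
      rw [huz] at huO
      exact hz j huO
    · simp only [Config.D, Set.mem_ofPred_eq, not_forall, not_not] at hz
      obtain ⟨j, hj⟩ := hz
      rw [p.E_of_inO hj]
      have h4 := ih _ ⟨j, hj, rfl⟩
      have h5 := q.E_equiv j (p.E (p.C.t j • z))
      rw [h1, h2, h4, Config.tt] at h5
      exact h5

/-- The homeomorphism obtained from two mutually inverse pairs. -/
def homeo (p q : Pair) (h1 : q.C = p.C') (h2 : q.C' = p.C)
    (h3 : ∀ z, q.f (p.f z) = z) (h4 : ∀ z, p.f (q.f z) = z) : ℍ ≃ₜ ℍ where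
  toFun := p.E
  invFun := q.E
  left_inv := p.E_comp q h1 h2 h3
  right_inv := q.E_comp p h2.symm h1.symm h4
  continuous_toFun := p.E_continuous
  continuous_invFun := q.E_continuous

end Pair

/-- A homeomorphism which is everywhere good is quasiconformal. -/
theorem isQuasiconformal_of_good {w : ℍ ≃ₜ ℍ} {k : ℝ} (hk0 : 0 ≤ k) (hk1 : k < 1)
    (h : ∀ z, Good w k z) : IsQuasiconformal w := by
  refine ⟨?_, k, hk0, hk1, ?_⟩
  · intro a b c d hab hc hcd
    constructor
    · refine Eventually.of_forall fun y hy => ?_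
      apply ContDiffOn.absolutelyContinuousOnInterval
      intro x _
      have hz : 0 < (⟨x, y⟩ : ℂ).im := lt_of_lt_of_le hc hy.1
      have h1 : ContDiffAt ℝ 1 (toC w) ((⟨⟨x, y⟩, hz⟩ : ℍ) : ℂ) := (h ⟨⟨x, y⟩, hz⟩).1
      have h2 : ContDiffAt ℝ 1 (fun x : ℝ => (⟨x, y⟩ : ℂ)) x := by
        have : (fun x : ℝ => (⟨x, y⟩ : ℂ)) = fun x : ℝ => (x : ℂ) + (y : ℂ) * Complex.I := by
          ext x; apply Complex.ext <;> simp
        rw [this]
        exact (Complex.ofRealCLM.contDiff.contDiffAt).add contDiffAt_const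
      exact (ContDiffAt.comp (g := toC w) x h1 h2).contDiffWithinAt
    · refine Eventually.of_forall fun x _ => ?_
      apply ContDiffOn.absolutelyContinuousOnInterval
      intro y hy
      rw [Set.uIcc_of_le hcd] at hy
      have hz : 0 < (⟨x, y⟩ : ℂ).im := lt_of_lt_of_le hc hy.1
      have h1 : ContDiffAt ℝ 1 (toC w) ((⟨⟨x, y⟩, hz⟩ : ℍ) : ℂ) := (h ⟨⟨x, y⟩, hz⟩).1
      have h2 : ContDiffAt ℝ 1 (fun y : ℝ => (⟨x, y⟩ : ℂ)) y := by
        have : (fun y : ℝ => (⟨x, y⟩ : ℂ)) = fun y : ℝ => (x : ℂ) + (y : ℂ) * Complex.I := by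
          ext y; apply Complex.ext <;> simp
        rw [this]
        exact contDiffAt_const.add
          ((Complex.ofRealCLM.contDiff.contDiffAt).mul contDiffAt_const)
      exact (ContDiffAt.comp (g := toC w) y h1 h2).contDiffWithinAt
  · refine Eventually.of_forall fun z hz => ?_
    have h1 := h ⟨z, hz⟩
    exact ⟨h1.1.differentiableAt (by norm_num), h1.2⟩

end Pool.Agent.H75.CE
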