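import Pool.Agent.H75.CE.Words

/-!
The group of even words is of the first kind when every nonzero rational number is covered by
one of the closed intervals.
-/

set_option autoImplicit false

open UpperHalfPlane Matrix Filter
open scoped MatrixGroups Topology

noncomputable section

namespace Pool.Agent.H75.CE

namespace Config

variable {C : Config}

/-- The covering hypothesis. -/
def Covers (C : Config) : Prop := ∀ q : ℚ, q ≠ 0 → ∃ j, |(q : ℝ) - C.x j| ≤ C.r j

/-- Near every real point outside the open intervals there are arbitrarily small discs. -/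
theorem exists_small (hcov : C.Covers) {p : ℝ} (hp : ∀ j, C.r j ≤ |p - C.x j|) {ε : ℝ}
    (hε : 0 < ε) : ∃ k, |p - C.x k| + C.r k < ε := by
  have hfin := C.fin (ε / 8) (by positivity)
  -- a generic lemma for one-sided neighbourhoods
  have key : ∀ l : Filter ℝ, l ≤ 𝓝 p → (∀ s ∈ l, ∃ q : ℚ, (q : ℝ) ∈ s) →
      (∀ᶠ y in l, y ≠ 0) → (∀ j ∈ {j | ε / 8 ≤ C.r j}, ∀ᶠ y in l, C.r j < |y - C.x j|) →
      ∃ k, |p - C.x k| + C.r k < ε := by
    intro l hl hq h0 hj
    have h1 := (eventually_all_finite hfin).mpr hj
    have h2 : ∀ᶠ y in l, |y - p| < ε / 4 := by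
      have : ∀ᶠ y in 𝓝 p, |y - p| < ε / 4 := by
        have := Metric.ball_mem_nhds p (show 0 < ε / 4 by positivity)
        filter_upwards [this] with y hy
        simpa [Real.dist_eq] using hy
      exact hl this
    obtain ⟨q, hq⟩ := hq _ (h0.and (h1.and h2))
    obtain ⟨q0, q1, q2⟩ := hq
    obtain ⟨k, hk⟩ := hcov q (by exact_mod_cast q0)
    have hk2 : C.r k < ε / 8 := by
      by_contra hcon
      have := q1 k (not_lt.mp hcon)
      linarith
    refine ⟨k, ?_⟩
    have h3 : |p - C.x k| ≤ |(q : ℝ) - p| + |(q : ℝ) - C.x k| := by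
      rw [abs_sub_comm (q : ℝ) p]
      have := abs_add_le (p - q) (q - C.x k)
      simpa using this
    linarith
  by_cases hcase : ∃ j, p = C.x j - C.r j
  · -- use the left side
    obtain ⟨j0, hj0⟩ := hcase
    apply key (𝓝[<] p) nhdsWithin_le_nhds
    · intro s hs
      obtain ⟨u, hu, hus⟩ := (mem_nhdsLT_iff_exists_Ioo_subset).mp hs
      obtain ⟨q, hq1, hq2⟩ := exists_rat_btwn (show u < p from hu)
      exact ⟨q, hus ⟨hq1, hq2⟩⟩
    · by_cases h0 : 0 < p
      · exact nhdsWithin_le_nhds (eventually_ne_nhds h0.ne')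
      · filter_upwards [self_mem_nhdsWithin] with y hy
        have : y < p := hy
        exact (lt_of_lt_of_le this (not_lt.mp h0)).ne
    · intro j _
      have hpj := hp j
      rcases le_total p (C.x j) with h | h
      · rw [abs_of_nonpos (by linarith)] at hpj
        filter_upwards [self_mem_nhdsWithin] with y hy
        have : y < p := hy
        rw [abs_of_neg (by linarith)]
        linarith
      · rw [abs_of_nonneg (by linarith)] at hpj
        have hne : p ≠ C.x j + C.r j := by
          intro hpe
          by_cases hjj : j = j0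
          · subst hjj
            have := C.r_pos j
            linarith
          · have := C.sep j j0 hjj
            have h1 : C.x j - C.x j0 = -(C.r j + C.r j0) := by linarith
            have h2 := C.r_pos j
            have h3 := C.r_pos j0
            rw [h1, abs_neg, abs_of_pos (by linarith)] at this
            linarith
        have hlt : C.x j + C.r j < p := lt_of_le_of_ne (by linarith) (Ne.symm hne)
        filter_upwards [nhdsWithin_le_nhds (Ioi_mem_nhds hlt)] with y hy
        have : C.x j + C.r j < y := hy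
        have h2 := C.r_pos j
        rw [abs_of_pos (by linarith)]
        linarith
  · push Not at hcase
    apply key (𝓝[>] p) nhdsWithin_le_nhds
    · intro s hs
      obtain ⟨u, hu, hus⟩ := (mem_nhdsGT_iff_exists_Ioo_subset).mp hs
      obtain ⟨q, hq1, hq2⟩ := exists_rat_btwn (show p < u from hu)
      exact ⟨q, hus ⟨hq1, hq2⟩⟩
    · by_cases h0 : p < 0
      · exact nhdsWithin_le_nhds (eventually_ne_nhds h0.ne)
      · filter_upwards [self_mem_nhdsWithin] with y hy
        have : p < y := hy
        have h0' := not_lt.mp h0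
        exact (lt_of_le_of_lt h0' this).ne'
    · intro j _
      have hpj := hp j
      rcases le_total (C.x j) p with h | h
      · rw [abs_of_nonneg (by linarith)] at hpj
        filter_upwards [self_mem_nhdsWithin] with y hy
        have : p < y := hy
        have h2 := C.r_pos j
        rw [abs_of_pos (by linarith)]
        linarith
      · rw [abs_of_nonpos (by linarith)] at hpj
        have hlt : p < C.x j - C.r j := lt_of_le_of_ne (by linarith) (hcase j)
        filter_upwards [nhdsWithin_le_nhds (Iio_mem_nhds hlt)] with y hy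
        have : y < C.x j - C.r j := hy
        have h2 := C.r_pos j
        rw [abs_of_neg (by linarith)]
        linarith

/-- The orbit of `i` under all words, as a subset of `ℂ`. -/
def S (C : Config) : Set ℂ := Set.range fun L : List ℕ => ((act (C.P L) UpperHalfPlane.I : ℍ) : ℂ)

/-- There are discs arbitrarily far away. -/
theorem exists_far (hcov : C.Covers) (hr : ∀ j, C.r j ≤ 1 / 2) (M : ℝ) : ∃ k, M < |C.x k| := by
  obtain ⟨n, hn⟩ := exists_nat_gt (max M 0 + 1)
  have hn0 : (0 : ℝ) < n := by
    have := le_max_right M 0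
    linarith
  obtain ⟨k, hk⟩ := hcov (n : ℚ) (by
    have : n ≠ 0 := by rintro rfl; simp at hn0
    exact_mod_cast this)
  refine ⟨k, ?_⟩
  have h1 := hr k
  have h2 : (n : ℝ) ≤ |C.x k| + |((n : ℚ) : ℝ) - C.x k| := by
    have := abs_add_le (C.x k) ((n : ℝ) - C.x k)
    have h3 : |(n : ℝ)| = n := abs_of_pos hn0
    simp only [add_sub_cancel] at this
    rw [h3] at this
    simpa using this
  have h4 := le_max_left M 0
  linarith

theorem not_inC_I (hr : ∀ j, C.r j ≤ 1 / 2) (l : ℕ) : ¬ C.inC l UpperHalfPlane.I := by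
  intro hl
  have := im_le_of_inC hl
  have := hr l
  simp at *
  linarith

theorem mem_closure_of_not_open (hcov : C.Covers) (hr : ∀ j, C.r j ≤ 1 / 2) {p : ℝ}
    (hp : ∀ j, C.r j ≤ |p - C.x j|) : (p : ℂ) ∈ closure C.S := by
  rw [Metric.mem_closure_iff]
  intro ε hε
  obtain ⟨k, hk⟩ := exists_small hcov hp hε
  refine ⟨_, ⟨[k], rfl⟩, ?_⟩
  have h1 := (inO_P (L := []) (List.IsChain.singleton k) (not_inC_I hr)).inC
  rw [inC_iff] at h1
  rw [dist_comm, dist_eq_norm]
  have h2 : ((act (C.P [k]) UpperHalfPlane.I : ℍ) : ℂ) - p =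
      (((act (C.P [k]) UpperHalfPlane.I : ℍ) : ℂ) - C.x k) - ((p - C.x k : ℝ) : ℂ) := by
    push_cast; ring
  rw [h2]
  refine (norm_sub_le _ _).trans_lt ?_
  rw [Complex.norm_real, Real.norm_eq_abs]
  linarith

theorem center_mem_closure (hcov : C.Covers) (hr : ∀ j, C.r j ≤ 1 / 2) (j : ℕ) :
    (C.x j : ℂ) ∈ closure C.S := by
  rw [Metric.mem_closure_iff]
  intro ε hε
  have hrj := C.r_pos j
  obtain ⟨k, hk⟩ := exists_far hcov hr (|C.x j| + 1 / 2 + C.r j ^ 2 / ε)
  have h1 := (inO_P (L := []) (List.IsChain.singleton k) (not_inC_I hr)).inC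
  rw [inC_iff] at h1
  refine ⟨_, ⟨[j, k], rfl⟩, ?_⟩
  set u := act (C.P [k]) UpperHalfPlane.I with hu
  have h2 : act (C.P [j, k]) UpperHalfPlane.I = C.t j • u := by
    rw [P_cons, act_mul, act_τ]
  simp only [h2]
  have h3 : ((C.t j • u : ℍ) : ℂ) = C.x j - (C.r j : ℂ) ^ 2 / ((u : ℂ) - C.x j) :=
    coe_ht_smul _ _ _ _
  have hd : 0 < C.r j ^ 2 / ε := by positivity
  have h4 : C.r j ^ 2 / ε < ‖(u : ℂ) - C.x j‖ := by
    have h5 : |C.x k| ≤ ‖(u : ℂ) - C.x j‖ + |C.x j| + ‖(u : ℂ) - C.x k‖ := by
      have e : ((C.x k : ℝ) : ℂ) = (((u : ℂ) - C.x j) + C.x j) - ((u : ℂ) - C.x k) := by ring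
      have h6 := norm_sub_le (((u : ℂ) - C.x j) + C.x j) ((u : ℂ) - C.x k)
      rw [← e, Complex.norm_real, Real.norm_eq_abs] at h6
      have := norm_add_le ((u : ℂ) - C.x j) (C.x j : ℂ)
      rw [Complex.norm_real, Real.norm_eq_abs] at this
      linarith
    have := hr k
    linarith
  rw [h3, dist_eq_norm, sub_sub_cancel, norm_div, norm_pow, Complex.norm_real,
    Real.norm_of_nonneg hrj.le, div_lt_iff₀ (hd.trans h4)]
  rw [div_lt_iff₀ hε] at h4
  linarith

theorem image_mem_closure {p : ℝ} {j : ℕ} (hp : p ≠ C.x j) (h : (p : ℂ) ∈ closure C.S) :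
    ((C.x j - C.r j ^ 2 / (p - C.x j) : ℝ) : ℂ) ∈ closure C.S := by
  have h1 : ContinuousAt (fun ζ : ℂ => (C.x j : ℂ) - (C.r j : ℂ) ^ 2 / (ζ - C.x j)) (p : ℂ) := by
    have : (p : ℂ) - C.x j ≠ 0 := by
      rw [sub_ne_zero]; exact_mod_cast hp
    fun_prop (disch := assumption)
  have h2 := mem_closure_image h1 h
  push_cast
  refine closure_mono ?_ h2
  rintro _ ⟨_, ⟨L, rfl⟩, rfl⟩
  refine ⟨j :: L, ?_⟩
  show ((act (C.P (j :: L)) UpperHalfPlane.I : ℍ) : ℂ) = _
  rw [P_cons, act_mul, act_τ]
  exact coe_ht_smul _ _ _ _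

/-- The key induction. -/
theorem exists_mem_Ioo (hcov : C.Covers) (hr : ∀ j, C.r j ≤ 1 / 2) (z : ℍ) :
    ∀ a b : ℝ, a < b → (z.re - a) * (z.re - b) + z.im ^ 2 < 0 →
      ∃ p ∈ Set.Ioo a b, ((p : ℝ) : ℂ) ∈ closure C.S := by
  induction z using C.wf.induction with
  | _ z ih =>
    intro a b hab hz
    by_contra hcon
    push Not at hcon
    -- every point of the interval is in some open interval
    have h1 : ∀ p ∈ Set.Ioo a b, ∃ j, |p - C.x j| < C.r j := by
      intro p hp
      by_contra hno
      push Not at hno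
      exact hcon p hp (mem_closure_of_not_open hcov hr hno)
    obtain ⟨j, hj⟩ := h1 ((a + b) / 2) ⟨by linarith, by linarith⟩
    have hrj := C.r_pos j
    -- the interval is contained in the `j`-th one
    have h2 : Set.Ioo a b ⊆ Set.Ioo (C.x j - C.r j) (C.x j + C.r j) := by
      have hv : IsOpen (⋃ k ∈ {k | k ≠ j}, Set.Ioo (C.x k - C.r k) (C.x k + C.r k)) :=
        isOpen_biUnion fun k _ => isOpen_Ioo
      apply IsPreconnected.subset_left_of_subset_union isOpen_Ioo hv _ _ _ isPreconnected_Ioo
      · rw [Set.disjoint_left]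
        intro y hy1 hy2
        simp only [Set.mem_iUnion] at hy2
        obtain ⟨k, hk, hy2⟩ := hy2
        have hk' : j ≠ k := fun h => hk h.symm
        have h3 := C.sep j k hk'
        have h4 : |C.x j - C.x k| < C.r j + C.r k := by
          rw [abs_lt]
          constructor <;> [linarith [hy1.1, hy1.2, hy2.1, hy2.2];
            linarith [hy1.1, hy1.2, hy2.1, hy2.2]]
        linarith
      · intro y hy
        obtain ⟨k, hk⟩ := h1 y hy
        rw [abs_lt] at hk
        by_cases hkj : k = j
        · subst hkj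
          left
          exact ⟨by linarith, by linarith⟩
        · right
          simp only [Set.mem_iUnion]
          exact ⟨k, hkj, by constructor <;> linarith⟩
      · rw [abs_lt] at hj
        exact ⟨(a + b) / 2, ⟨by linarith, by linarith⟩, ⟨by linarith, by linarith⟩⟩
    have h3 : C.x j - C.r j ≤ a ∧ b ≤ C.x j + C.r j := by
      rwa [Set.Ioo_subset_Ioo_iff hab] at h2
    obtain ⟨h3a, h3b⟩ := h3
    have hza : a < z.re ∧ z.re < b := by
      have him := z.im_pos
      by_contra hcon2
      rw [not_and_or, not_lt, not_lt] at hcon2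
      rcases hcon2 with h | h
      · nlinarith
      · nlinarith
    have hzO : C.inO j z := by
      unfold inO
      rw [Nsq_eq]
      nlinarith [hza.1, hza.2]
    -- the centre is not in the interval
    have h4 : b ≤ C.x j ∨ C.x j ≤ a := by
      by_contra hcon2
      push Not at hcon2
      exact hcon (C.x j) ⟨hcon2.2, hcon2.1⟩ (center_mem_closure hcov hr j)
    -- shrink the interval
    set η := -((z.re - a) * (z.re - b) + z.im ^ 2) with hη
    have hη0 : 0 < η := by linarith
    set δ := η / (2 * (b - a)) with hδ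
    have hba : 0 < b - a := by linarith
    have hδ0 : 0 < δ := by positivity
    have hδ1 : δ * (2 * (b - a)) = η := by rw [hδ]; field_simp
    have hδ2 : δ < (b - a) / 2 := by
      have him := z.im_pos
      have : η < (b - a) ^ 2 := by nlinarith [hza.1, hza.2]
      nlinarith
    set A := a + δ - C.x j with hA
    set B := b - δ - C.x j with hB
    have hAB : A < B := by rw [hA, hB]; linarith
    have hABpos : 0 < A * B := by
      rcases h4 with h | h
      · exact mul_pos_of_neg_of_neg (by rw [hA]; linarith) (by rw [hB]; linarith)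
      · exact mul_pos (by rw [hA]; linarith) (by rw [hB]; linarith)
    have hA0 : A ≠ 0 := by rintro h; rw [h] at hABpos; simp at hABpos
    have hB0 : B ≠ 0 := by rintro h; rw [h] at hABpos; simp at hABpos
    have hz2 : (z.re - C.x j - A) * (z.re - C.x j - B) + z.im ^ 2 < 0 := by
      have e : (z.re - C.x j - A) * (z.re - C.x j - B) + z.im ^ 2 =
          -η + δ * (b - a) - δ ^ 2 := by rw [hη, hA, hB]; ring
      rw [e]
      nlinarith
    have hlt : C.x j - C.r j ^ 2 / A < C.x j - C.r j ^ 2 / B := by
      have : C.r j ^ 2 / B < C.r j ^ 2 / A := by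
        have e : C.r j ^ 2 / A - C.r j ^ 2 / B = C.r j ^ 2 * (B - A) / (A * B) := by
          field_simp
        have : 0 < C.r j ^ 2 * (B - A) / (A * B) := by
          apply div_pos _ hABpos
          apply mul_pos (by positivity) (by linarith)
        linarith
      linarith
    have hN := Nsq_pos (C.x j) z
    have hNe := Nsq_eq (C.x j) z
    have hcond : ((C.t j • z).re - (C.x j - C.r j ^ 2 / A)) *
        ((C.t j • z).re - (C.x j - C.r j ^ 2 / B)) + (C.t j • z).im ^ 2 < 0 := by
      have e1 : (C.t j • z).re = C.x j - C.r j ^ 2 * (z.re - C.x j) / Nsq (C.x j) z :=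
        ht_re _ _ _ _
      have e2 := t_im (C := C) j z
      rw [e1, e2]
      have e3 : (C.x j - C.r j ^ 2 * (z.re - C.x j) / Nsq (C.x j) z - (C.x j - C.r j ^ 2 / A)) *
          (C.x j - C.r j ^ 2 * (z.re - C.x j) / Nsq (C.x j) z - (C.x j - C.r j ^ 2 / B)) +
          (C.r j ^ 2 * z.im / Nsq (C.x j) z) ^ 2 =
          C.r j ^ 4 / (Nsq (C.x j) z * (A * B)) *
            ((z.re - C.x j - A) * (z.re - C.x j - B) + z.im ^ 2) := by
        field_simp
        rw [hNe]
        ring
      rw [e3]
      apply mul_neg_of_pos_of_neg _ hz2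
      positivity
    obtain ⟨p, ⟨hp1, hp2⟩, hpS⟩ := ih (C.t j • z) ⟨j, hzO, rfl⟩ _ _ hlt hcond
    -- pull the point back
    set P := p - C.x j with hP
    have hP1 : -(C.r j ^ 2 / A) < P := by rw [hP]; linarith
    have hP2 : P < -(C.r j ^ 2 / B) := by rw [hP]; linarith
    have hr2 : 0 < C.r j ^ 2 := by positivity
    have hfin : A < -(C.r j ^ 2 / P) ∧ -(C.r j ^ 2 / P) < B ∧ P ≠ 0 := by
      rcases lt_or_gt_of_ne hA0 with hAn | hAp
      · have hBn : B < 0 := by
          by_contra h
          have := mul_nonpos_of_nonpos_of_nonneg hAn.le (not_lt.mp h)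
          linarith
        have hPp : 0 < P := by
          have : 0 < -(C.r j ^ 2 / A) := by
            have := div_neg_of_pos_of_neg hr2 hAn
            linarith
          linarith
        refine ⟨?_, ?_, hPp.ne'⟩
        · have h5 : -(C.r j ^ 2) > A * P := by
            have := mul_lt_mul_of_neg_left hP1 hAn
            rw [mul_neg, mul_div_cancel₀ _ hA0] at this
            linarith
          rw [← neg_div, lt_div_iff₀ hPp]
          linarith
        · have h5 : -(C.r j ^ 2) < B * P := by
            have := mul_lt_mul_of_neg_left hP2 hBn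
            rw [mul_neg, mul_div_cancel₀ _ hB0] at this
            linarith
          rw [← neg_div, div_lt_iff₀ hPp]
          linarith
      · have hBp : 0 < B := by linarith
        have hPn : P < 0 := by
          have : -(C.r j ^ 2 / B) < 0 := by
            have := div_pos hr2 hBp
            linarith
          linarith
        refine ⟨?_, ?_, hPn.ne⟩
        · have h5 : -(C.r j ^ 2) < A * P := by
            have := mul_lt_mul_of_pos_left hP1 hAp
            rw [mul_neg, mul_div_cancel₀ _ hA0] at this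
            linarith
          rw [← neg_div, lt_div_iff_of_neg hPn]
          linarith
        · have h5 : -(C.r j ^ 2) > B * P := by
            have := mul_lt_mul_of_pos_left hP2 hBp
            rw [mul_neg, mul_div_cancel₀ _ hB0] at this
            linarith
          rw [← neg_div, div_lt_iff_of_neg hPn]
          linarith
    obtain ⟨hf1, hf2, hf3⟩ := hfin
    have hpne : p ≠ C.x j := by
      intro h; apply hf3; rw [hP, h, sub_self]
    have hmem := image_mem_closure (C := C) hpne hpS
    rw [← hP] at hmem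
    apply hcon _ _ hmem
    constructor
    · have : A < -(C.r j ^ 2 / P) := hf1
      rw [hA] at this
      linarith
    · have : -(C.r j ^ 2 / P) < B := hf2
      rw [hB] at this
      linarith

theorem real_mem_closure (hcov : C.Covers) (hr : ∀ j, C.r j ≤ 1 / 2) (p : ℝ) :
    (p : ℂ) ∈ closure C.S := by
  rw [← closure_closure, Metric.mem_closure_iff]
  intro ε hε
  obtain ⟨p', ⟨h1, h2⟩, h3⟩ := exists_mem_Ioo hcov hr ⟨⟨p, ε / 2⟩, half_pos hε⟩ (p - ε) (p + ε)
    (by linarith) (by
      have e1 : UpperHalfPlane.re ⟨⟨p, ε / 2⟩, half_pos hε⟩ = p := rfl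
      have e2 : UpperHalfPlane.im ⟨⟨p, ε / 2⟩, half_pos hε⟩ = ε / 2 := rfl
      rw [e1, e2]
      nlinarith)
  refine ⟨p', h3, ?_⟩
  rw [dist_eq_norm, ← Complex.ofReal_sub, Complex.norm_real, Real.norm_eq_abs, abs_lt]
  constructor <;> linarith

theorem τ_mul_mem (j k : ℕ) : C.τ j * C.τ k ∈ C.G := Subgroup.subset_closure ⟨(j, k), rfl⟩

/-- The group of even words is of the first kind. -/
theorem G_firstKind (hcov : C.Covers) (hr : ∀ j, C.r j ≤ 1 / 2) : IsFirstKind C.G := by
  rw [IsFirstKind, Set.eq_univ_iff_forall]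
  intro ξ z
  induction ξ using OnePoint.rec with
  | infty =>
    show (OnePoint.infty : OnePoint ℂ) ∈ _
    -- words `τ_k τ_0` send `z` far away
    have h1 : ∀ n : ℕ, ∃ k, |((C.t 0 • z : ℍ) : ℂ).re| + 1 + n < |C.x k| := fun n =>
      exists_far hcov hr _
    choose k hk using h1
    have h2 : ∀ n : ℕ, (n : ℝ) ≤ ‖((act (C.τ (k n) * C.τ 0) z : ℍ) : ℂ)‖ := by
      intro n
      rw [act_mul, act_τ, act_τ]
      set u := C.t 0 • z with hu
      have h3 : ¬ C.inO (k n) u := by
        intro h
        rw [inO_iff] at h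
        have h4 : |((u : ℂ) - C.x (k n)).re| ≤ ‖(u : ℂ) - C.x (k n)‖ := Complex.abs_re_le_norm _
        have h5 := hk n
        have h6 := hr (k n)
        rw [Complex.sub_re, Complex.ofReal_re] at h4
        have h7 : |C.x (k n)| ≤ |(u : ℂ).re| + |(u : ℂ).re - C.x (k n)| := by
          have := abs_sub (u : ℂ).re ((u : ℂ).re - C.x (k n))
          simpa using this
        have h8 : (0 : ℝ) ≤ n := Nat.cast_nonneg n
        linarith
      have h4 := inC_t.mpr h3
      rw [inC_iff] at h4
      have h5 : |C.x (k n)| ≤ ‖((C.t (k n) • u : ℍ) : ℂ)‖ +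
          ‖((C.t (k n) • u : ℍ) : ℂ) - C.x (k n)‖ := by
        rw [← Real.norm_eq_abs, ← Complex.norm_real]
        have := norm_sub_le ((C.t (k n) • u : ℍ) : ℂ) (((C.t (k n) • u : ℍ) : ℂ) - C.x (k n))
        simpa using this
      have h6 := hr (k n)
      have h7 := hk n
      have h8 := abs_nonneg (u : ℂ).re
      linarith
    have h3 : Tendsto (fun n => (((act (C.τ (k n) * C.τ 0) z : ℍ) : ℂ) : OnePoint ℂ)) atTop
        (𝓝 (OnePoint.infty : OnePoint ℂ)) := by
      apply OnePoint.tendsto_coe_infty.comp
      rw [coclosedCompact_eq_cocompact, ← Metric.cobounded_eq_cocompact,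
        ← tendsto_norm_atTop_iff_cobounded]
      exact tendsto_atTop_mono h2 tendsto_natCast_atTop_atTop
    apply mem_closure_of_tendsto h3
    exact Eventually.of_forall fun n => ⟨⟨_, τ_mul_mem _ _⟩, rfl⟩
  | coe p =>
    show ((p : ℂ) : OnePoint ℂ) ∈ _
    have h1 : (p : ℂ) ∈ closure (Set.range fun γ : C.G => ((act γ z : ℍ) : ℂ)) := by
      rw [Metric.mem_closure_iff]
      intro ε hε
      set R := max (dist z UpperHalfPlane.I) (dist (C.t 0 • z) UpperHalfPlane.I) with hR
      have hcl := real_mem_closure hcov hr p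
      rw [Metric.mem_closure_iff] at hcl
      obtain ⟨_, ⟨L, rfl⟩, hL⟩ := hcl (ε * Real.exp (-R)) (by positivity)
      -- an even element whose orbit point is close to `P L i`
      have h2 : ∃ γ ∈ C.G, dist (act γ z) (act (C.P L) UpperHalfPlane.I) ≤ R := by
        by_cases he : Even L.length
        · exact ⟨C.P L, even_mem_G he, by rw [dist_act]; exact le_max_left _ _⟩
        · refine ⟨C.P (L ++ [0]), even_mem_G ?_, ?_⟩
          · rw [List.length_append, List.length_singleton, Nat.even_add_one]; exact he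
          · rw [P_append, act_mul, dist_act]
            have : act (C.P [0]) z = C.t 0 • z := by
              rw [P_cons, P_nil, mul_one, act_τ]
            rw [this]
            exact le_max_right _ _
      obtain ⟨γ, hγ, hd⟩ := h2
      refine ⟨_, ⟨⟨γ, hγ⟩, rfl⟩, ?_⟩
      show dist (p : ℂ) ((act γ z : ℍ) : ℂ) < ε
      set v := act (C.P L) UpperHalfPlane.I with hv
      simp only at hL
      have h3 := dist_coe_le (act γ z) v
      have h4 : v.im ≤ dist (p : ℂ) (v : ℂ) := by
        rw [dist_comm, dist_eq_norm]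
        have := Complex.abs_im_le_norm ((v : ℂ) - p)
        rw [Complex.sub_im, Complex.ofReal_im, sub_zero] at this
        have h5 : (v : ℂ).im = v.im := rfl
        rw [h5, abs_of_pos v.im_pos] at this
        exact this
      have h5 : Real.exp (dist (act γ z) v) ≤ Real.exp R := Real.exp_le_exp.mpr hd
      have h6 := v.im_pos
      have h7 : dist (p : ℂ) (v : ℂ) * Real.exp R < ε := by
        have := mul_lt_mul_of_pos_right hL (Real.exp_pos R)
        rw [mul_assoc, ← Real.exp_add] at this
        simpa using this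
      have h8 : 1 ≤ Real.exp (dist (act γ z) v) := Real.one_le_exp dist_nonneg
      calc dist (p : ℂ) ((act γ z : ℍ) : ℂ) ≤ dist (p : ℂ) v + dist ((act γ z : ℍ) : ℂ) v :=
            dist_triangle_right _ _ _
        _ ≤ dist (p : ℂ) v + v.im * (Real.exp (dist (act γ z) v) - 1) := by linarith
        _ ≤ dist (p : ℂ) v + dist (p : ℂ) v * (Real.exp (dist (act γ z) v) - 1) := by
            gcongr
        _ = dist (p : ℂ) v * Real.exp (dist (act γ z) v) := by ring
        _ ≤ dist (p : ℂ) v * Real.exp R := by gcongr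
        _ < ε := h7
    have h2 := image_closure_subset_closure_image (f := ((↑) : ℂ → OnePoint ℂ))
      OnePoint.continuous_coe ⟨_, h1, rfl⟩
    refine closure_mono ?_ h2
    rintro _ ⟨_, ⟨γ, rfl⟩, rfl⟩
    exact ⟨γ, rfl⟩

end Config

end Pool.Agent.H75.CE
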