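import Pool.Agent.H75.CE.Rows
import Pool.Agent.H75.CE.FirstKind
import Pool.Agent.H75.CE.Deform

/-!
Construction of the configuration.
-/

set_option autoImplicit false

open UpperHalfPlane Matrix Filter
open scoped MatrixGroups Topology

noncomputable section

namespace Pool.Agent.H75.CE

/-- The requirements on a new disc `p` (centre and radius), given the old discs `L`. -/
structure Step (k : ℕ) (L : List (ℝ × ℝ)) (e : ℝ) (p : ℝ × ℝ) : Prop where
  pos : 0 < p.2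
  ne : p.1 ≠ 0
  s1 : p.2 ≤ q k ^ 16 * |p.1|
  s2 : p.2 ≤ q k ^ 16
  s3 : ∀ o ∈ L, p.2 ≤ q k ^ 16 * (|o.1 - p.1| - o.2)
  s4 : e = 0 ∨ ∃ o ∈ p :: L, |e - o.1| ≤ o.2

theorem exists_small_radius (k : ℕ) (L : List (ℝ × ℝ)) (x : ℝ) (hx : x ≠ 0)
    (h : ∀ o ∈ L, o.2 < |o.1 - x|) :
    ∃ r, 0 < r ∧ r ≤ q k ^ 16 * |x| ∧ r ≤ q k ^ 16 ∧
      ∀ o ∈ L, r ≤ q k ^ 16 * (|o.1 - x| - o.2) := by
  have hq : 0 < q k ^ 16 := pow_pos (q_pos k) 16
  induction L with
  | nil =>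
    refine ⟨min (q k ^ 16 * |x|) (q k ^ 16), ?_, min_le_left _ _, min_le_right _ _, by simp⟩
    have := abs_pos.mpr hx
    positivity
  | cons o L ih =>
    obtain ⟨r, h1, h2, h3, h4⟩ := ih fun o ho => h o (List.mem_cons_of_mem _ ho)
    have h5 := h o List.mem_cons_self
    refine ⟨min r (q k ^ 16 * (|o.1 - x| - o.2)), ?_, (min_le_left _ _).trans h2,
      (min_le_left _ _).trans h3, ?_⟩
    · apply lt_min h1
      have : 0 < |o.1 - x| - o.2 := by linarith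
      positivity
    · intro p hp
      rcases List.mem_cons.mp hp with rfl | hp
      · exact min_le_right _ _
      · exact (min_le_left _ _).trans (h4 p hp)

theorem exists_far_point (L : List (ℝ × ℝ)) :
    ∃ x : ℝ, x ≠ 0 ∧ ∀ o ∈ L, o.2 < |o.1 - x| := by
  set S := (L.map fun o => |o.1| + |o.2|).sum with hS
  have h1 : ∀ o ∈ L, |o.1| + |o.2| ≤ S := by
    intro o ho
    apply List.single_le_sum
    · intro y hy
      obtain ⟨p, -, rfl⟩ := List.mem_map.mp hy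
      positivity
    · exact List.mem_map.mpr ⟨o, ho, rfl⟩
  have h0 : 0 ≤ S := by
    apply List.sum_nonneg
    intro y hy
    obtain ⟨p, -, rfl⟩ := List.mem_map.mp hy
    positivity
  refine ⟨1 + S, by positivity, fun o ho => ?_⟩
  have h2 := h1 o ho
  have h3 := neg_le_abs (o.1 - (1 + S))
  have h4 := le_abs_self o.1
  have h5 := le_abs_self o.2
  linarith

theorem exists_step (k : ℕ) (L : List (ℝ × ℝ)) (e : ℝ) : ∃ p, Step k L e p := by
  by_cases hc : e = 0 ∨ ∃ o ∈ L, |e - o.1| ≤ o.2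
  · obtain ⟨x, hx, hL⟩ := exists_far_point L
    obtain ⟨r, h1, h2, h3, h4⟩ := exists_small_radius k L x hx hL
    refine ⟨(x, r), h1, hx, h2, h3, h4, ?_⟩
    rcases hc with h | ⟨o, ho, h⟩
    · exact Or.inl h
    · exact Or.inr ⟨o, List.mem_cons_of_mem _ ho, h⟩
  · push Not at hc
    obtain ⟨he, hL⟩ := hc
    obtain ⟨r, h1, h2, h3, h4⟩ := exists_small_radius k L e he fun o ho => by
      rw [abs_sub_comm]; exact hL o ho
    refine ⟨(e, r), h1, he, h2, h3, h4, Or.inr ⟨(e, r), List.mem_cons_self, ?_⟩⟩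
    simpa using h1.le

/-- An enumeration of the rationals. -/
def en (n : ℕ) : ℝ := (((Denumerable.eqv ℚ).symm n : ℚ) : ℝ)

theorem en_surj (a : ℚ) : ∃ n, en n = a := by
  obtain ⟨n, hn⟩ := (Denumerable.eqv ℚ).symm.surjective a
  exact ⟨n, by rw [en, hn]⟩

/-- The list of the first `n + 3` discs. -/
def build : ℕ → List (ℝ × ℝ)
  | 0 => [(3, 1 / 2), (1, 1 / 2), (-1, 1 / 2)]
  | n + 1 => (exists_step (n + 3) (build n) (en n)).choose :: build n

/-- The `k`-th disc. -/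
def pt : ℕ → ℝ × ℝ
  | 0 => (-1, 1 / 2)
  | 1 => (1, 1 / 2)
  | 2 => (3, 1 / 2)
  | n + 3 => (exists_step (n + 3) (build n) (en n)).choose

theorem build_succ (n : ℕ) : build (n + 1) = pt (n + 3) :: build n := rfl

theorem step_pt (n : ℕ) : Step (n + 3) (build n) (en n) (pt (n + 3)) :=
  (exists_step (n + 3) (build n) (en n)).choose_spec

theorem mem_build {n j : ℕ} (h : j < n + 3) : pt j ∈ build n := by
  induction n with
  | zero =>
    have : j = 0 ∨ j = 1 ∨ j = 2 := by omega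
    rcases this with rfl | rfl | rfl <;> simp [pt, build]
  | succ n ih =>
    rw [build_succ]
    by_cases h1 : j < n + 3
    · exact List.mem_cons_of_mem _ (ih h1)
    · have : j = n + 3 := by omega
      subst this
      exact List.mem_cons_self

theorem exists_of_mem_build {n : ℕ} {o : ℝ × ℝ} (h : o ∈ build n) : ∃ j, pt j = o := by
  induction n with
  | zero =>
    simp only [build, List.mem_cons, List.not_mem_nil, or_false] at h
    rcases h with rfl | rfl | rfl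
    · exact ⟨2, rfl⟩
    · exact ⟨1, rfl⟩
    · exact ⟨0, rfl⟩
  | succ n ih =>
    rw [build_succ] at h
    rcases List.mem_cons.mp h with rfl | h
    · exact ⟨_, rfl⟩
    · exact ih h

theorem step_of_le {k : ℕ} (hk : 3 ≤ k) : Step k (build (k - 3)) (en (k - 3)) (pt k) := by
  obtain ⟨n, rfl⟩ : ∃ n, k = n + 3 := ⟨k - 3, by omega⟩
  exact step_pt n

theorem pt_pos (k : ℕ) : 0 < (pt k).2 := by
  by_cases hk : 3 ≤ k
  · exact (step_of_le hk).pos
  · have : k = 0 ∨ k = 1 ∨ k = 2 := by omega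
    rcases this with rfl | rfl | rfl <;> simp [pt]

theorem pt_ne (k : ℕ) : (pt k).1 ≠ 0 := by
  by_cases hk : 3 ≤ k
  · exact (step_of_le hk).ne
  · have : k = 0 ∨ k = 1 ∨ k = 2 := by omega
    rcases this with rfl | rfl | rfl <;> simp [pt]

theorem q16_le {k : ℕ} (hk : 3 ≤ k) : q k ^ 16 ≤ 1 / 128 :=
  (pow_le_of_le_one (q_pos k).le (q_le_one k) (by norm_num)).trans (q_le hk)

theorem q16_le_q (k : ℕ) : q k ^ 16 ≤ q k := pow_le_of_le_one (q_pos k).le (q_le_one k) (by norm_num)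

theorem pt_T1 {k j : ℕ} (hk : 3 ≤ k) (hj : j < k) :
    (pt k).2 ≤ q k ^ 16 * (|(pt j).1 - (pt k).1| - (pt j).2) :=
  (step_of_le hk).s3 _ (mem_build (by omega))

theorem pt_sep {k j : ℕ} (hj : j < k) : (pt j).2 + (pt k).2 < |(pt j).1 - (pt k).1| := by
  by_cases hk : 3 ≤ k
  · have h1 := pt_T1 hk hj
    have h2 := pt_pos k
    have h3 := q16_le hk
    have h4 : 0 < q k ^ 16 := pow_pos (q_pos k) 16
    have h5 : 0 < |(pt j).1 - (pt k).1| - (pt j).2 := by
      by_contra hcon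
      push Not at hcon
      nlinarith
    nlinarith
  · have : (j = 0 ∧ k = 1) ∨ (j = 0 ∧ k = 2) ∨ (j = 1 ∧ k = 2) := by omega
    rcases this with ⟨rfl, rfl⟩ | ⟨rfl, rfl⟩ | ⟨rfl, rfl⟩
    · simp only [pt]; norm_num [abs_of_neg]
    · simp only [pt]; norm_num [abs_of_neg]
    · simp only [pt]; norm_num [abs_of_neg]

theorem pt_half (k : ℕ) : (pt k).2 ≤ 1 / 2 := by
  by_cases hk : 3 ≤ k
  · have h1 := (step_of_le hk).s2
    have h3 := q16_le hk
    linarith
  · have : k = 0 ∨ k = 1 ∨ k = 2 := by omega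
    rcases this with rfl | rfl | rfl <;> simp [pt]

theorem pt_half_abs (k : ℕ) : (pt k).2 ≤ |(pt k).1| / 2 := by
  by_cases hk : 3 ≤ k
  · have h1 := (step_of_le hk).s1
    have h3 := q16_le hk
    have h4 := abs_nonneg (pt k).1
    nlinarith
  · have : k = 0 ∨ k = 1 ∨ k = 2 := by omega
    rcases this with rfl | rfl | rfl <;> norm_num [pt]

theorem tendsto_q : Tendsto q atTop (𝓝 0) := by
  have h := tendsto_pow_atTop_nhds_zero_of_lt_one (show (0 : ℝ) ≤ 1 / 128 by norm_num)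
    (show (1 / 128 : ℝ) < 1 by norm_num)
  exact h.comp (tendsto_sub_atTop_nat 2)

/-- The configuration. -/
def C₀ : Config where
  x k := (pt k).1
  r k := (pt k).2
  r_pos := pt_pos
  sep j k hjk := by
    rcases lt_or_gt_of_ne hjk with h | h
    · exact pt_sep h
    · rw [add_comm, abs_sub_comm]; exact pt_sep h
  fin y hy := by
    have h1 : ∀ᶠ k in atTop, q k < y := tendsto_q.eventually (gt_mem_nhds hy)
    obtain ⟨N, hN⟩ := eventually_atTop.mp h1
    apply (Set.finite_lt_nat (max N 3)).subset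
    intro j hj
    by_contra hcon
    simp only [Set.mem_ofPred_eq, not_lt] at hcon hj
    have h2 := hN j (le_of_max_le_left hcon)
    have h3 := (step_of_le (le_of_max_le_right hcon)).s2
    have h4 := q16_le_q j
    linarith

theorem C₀_tail : C₀.Tail where
  T1 _ hk _ hj := pt_T1 hk hj
  T2 _ hk := (step_of_le hk).s1
  T3 k _ := by
    have := pt_half_abs k
    have := abs_nonneg (pt k).1
    show (pt k).2 ≤ |(pt k).1|
    linarith

theorem C₀_covers : C₀.Covers := by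
  intro a ha
  obtain ⟨n, hn⟩ := en_surj a
  have h := (step_pt n).s4
  rw [hn] at h
  rcases h with h | ⟨o, ho, h⟩
  · exact absurd (by exact_mod_cast h) ha
  · rw [← build_succ] at ho
    obtain ⟨j, rfl⟩ := exists_of_mem_build ho
    exact ⟨j, h⟩

namespace Config

/-- Configurations in good position with respect to the origin. -/
structure Nice (C : Config) : Prop where
  ne : ∀ j, C.x j ≠ 0
  half : ∀ j, C.r j ≤ |C.x j| / 2

/-- The multipliers. -/
def mul (C : Config) (ℓ : ℝ) (j : ℕ) : {a : ℝ // 0 < a} :=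
  ⟨Real.exp (if 0 < C.x j then ℓ else 0), Real.exp_pos _⟩

theorem mul_pos' {C : Config} {ℓ : ℝ} {j : ℕ} (h : 0 < C.x j) : (C.mul ℓ j : ℝ) = Real.exp ℓ := by
  simp [mul, h]

theorem mul_neg' {C : Config} {ℓ : ℝ} {j : ℕ} (h : C.x j < 0) : (C.mul ℓ j : ℝ) = 1 := by
  simp [mul, h.le]

variable {C : Config}

theorem mixed (ℓ : ℝ) {j k : ℕ} (hj : C.x j < 0) (hk : 0 < C.x k) :
    |(C.mul ℓ j : ℝ) * C.x j - C.mul ℓ k * C.x k| = |C.x j| + Real.exp ℓ * |C.x k| := by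
  have h1 := Real.exp_pos ℓ
  rw [mul_neg' hj, mul_pos' hk, abs_of_neg hj, abs_of_pos hk, abs_of_neg]
  · ring
  · nlinarith

theorem mixed' (ℓ : ℝ) {j k : ℕ} (hj : 0 < C.x j) (hk : C.x k < 0) :
    |(C.mul ℓ j : ℝ) * C.x j - C.mul ℓ k * C.x k| = Real.exp ℓ * |C.x j| + |C.x k| := by
  rw [abs_sub_comm, mixed ℓ hk hj]
  ring

/-- The configuration scaled by `exp ℓ` on the right half line. -/
def scale (hN : C.Nice) (ℓ : ℝ) : Config where
  x j := C.mul ℓ j * C.x j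
  r j := C.mul ℓ j * C.r j
  r_pos j := _root_.mul_pos (C.mul ℓ j).2 (C.r_pos j)
  sep j k hjk := by
    have h0 := C.sep j k hjk
    have h1 := Real.exp_pos ℓ
    have hj := hN.half j
    have hk := hN.half k
    have hj0 := abs_pos.mpr (hN.ne j)
    have hk0 := abs_pos.mpr (hN.ne k)
    rcases lt_or_gt_of_ne (hN.ne j) with hxj | hxj <;> rcases lt_or_gt_of_ne (hN.ne k) with hxk | hxk
    · rw [mul_neg' hxj, mul_neg' hxk]; simpa using h0
    · rw [mixed ℓ hxj hxk, mul_neg' hxj, mul_pos' hxk]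
      nlinarith
    · rw [mixed' ℓ hxj hxk, mul_pos' hxj, mul_neg' hxk]
      nlinarith
    · rw [mul_pos' hxj, mul_pos' hxk, ← mul_sub, ← mul_add, abs_mul, abs_of_pos h1]
      gcongr
  fin y hy := by
    have h1 := Real.exp_pos |ℓ|
    apply (C.fin (y / Real.exp |ℓ|) (by positivity)).subset
    intro j hj
    simp only [Set.mem_ofPred_eq] at hj ⊢
    rw [div_le_iff₀ h1]
    have h2 : (C.mul ℓ j : ℝ) ≤ Real.exp |ℓ| := by
      unfold mul
      apply Real.exp_le_exp.mpr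
      split_ifs
      · exact le_abs_self ℓ
      · exact abs_nonneg ℓ
    have h3 := C.r_pos j
    nlinarith

theorem scale_nice (hN : C.Nice) (ℓ : ℝ) : (scale hN ℓ).Nice where
  ne j := mul_ne_zero (C.mul ℓ j).2.ne' (hN.ne j)
  half j := by
    have h := hN.half j
    have h1 := (C.mul ℓ j).2
    show (C.mul ℓ j : ℝ) * C.r j ≤ |(C.mul ℓ j : ℝ) * C.x j| / 2
    rw [abs_mul, abs_of_pos h1]
    nlinarith

theorem scale_tail (hN : C.Nice) (hT : C.Tail) (ℓ : ℝ) : (scale hN ℓ).Tail where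
  T1 k hk j hj := by
    have h0 := hT.T1 k hk j hj
    have h00 := hT.T2 k hk
    have h1 := Real.exp_pos ℓ
    have hj1 := hN.half j
    have hj0 := abs_pos.mpr (hN.ne j)
    have hk0 := abs_pos.mpr (hN.ne k)
    have hq : 0 < q k ^ 16 := pow_pos (q_pos k) 16
    show (C.mul ℓ k : ℝ) * C.r k ≤
      q k ^ 16 * (|(C.mul ℓ j : ℝ) * C.x j - C.mul ℓ k * C.x k| - C.mul ℓ j * C.r j)
    rcases lt_or_gt_of_ne (hN.ne j) with hxj | hxj <;> rcases lt_or_gt_of_ne (hN.ne k) with hxk | hxk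
    · rw [mul_neg' hxj, mul_neg' hxk]; simpa using h0
    · rw [mixed ℓ hxj hxk, mul_neg' hxj, mul_pos' hxk]
      calc Real.exp ℓ * C.r k ≤ Real.exp ℓ * (q k ^ 16 * |C.x k|) := by gcongr
        _ = q k ^ 16 * (Real.exp ℓ * |C.x k|) := by ring
        _ ≤ _ := by gcongr; linarith
    · rw [mixed' ℓ hxj hxk, mul_pos' hxj, mul_neg' hxk]
      calc 1 * C.r k ≤ q k ^ 16 * |C.x k| := by linarith
        _ ≤ _ := by
          gcongr
          nlinarith
    · rw [mul_pos' hxj, mul_pos' hxk, ← mul_sub, abs_mul, abs_of_pos h1]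
      calc Real.exp ℓ * C.r k ≤ Real.exp ℓ * (q k ^ 16 * (|C.x j - C.x k| - C.r j)) := by gcongr
        _ = _ := by ring
  T2 k hk := by
    have h0 := hT.T2 k hk
    have h1 := (C.mul ℓ k).2
    show (C.mul ℓ k : ℝ) * C.r k ≤ q k ^ 16 * |(C.mul ℓ k : ℝ) * C.x k|
    rw [abs_mul, abs_of_pos h1]
    nlinarith
  T3 k hk := by
    have h0 := hT.T3 k hk
    have h1 := (C.mul ℓ k).2
    show (C.mul ℓ k : ℝ) * C.r k ≤ |(C.mul ℓ k : ℝ) * C.x k|
    rw [abs_mul, abs_of_pos h1]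
    nlinarith

theorem I_mem_D (hN : C.Nice) : UpperHalfPlane.I ∈ C.D := by
  intro j hj
  unfold inO at hj
  rw [Nsq_eq] at hj
  have h := hN.half j
  have h1 := C.r_pos j
  have h2 : C.r j ^ 2 ≤ C.x j ^ 2 := by
    rw [← sq_abs (C.x j)]
    have := abs_nonneg (C.x j)
    gcongr
    linarith
  simp only [I_re, I_im] at hj
  nlinarith

theorem re_neg_of_inC (hN : C.Nice) {j : ℕ} {z : ℍ} (hj : C.x j < 0) (h : C.inC j z) :
    z.re < 0 := by
  have h1 := hN.half j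
  have h2 := C.r_pos j
  rw [abs_of_neg hj] at h1
  unfold inC at h
  rw [Nsq_eq] at h
  have h3 := z.im_pos
  by_contra hcon
  push Not at hcon
  nlinarith

theorem im_lt_re_of_inC (hN : C.Nice) {j : ℕ} {z : ℍ} (hj : 0 < C.x j) (h : C.inC j z) :
    z.im < z.re := by
  have h1 := hN.half j
  have h2 := C.r_pos j
  rw [abs_of_pos hj] at h1
  unfold inC at h
  rw [Nsq_eq] at h
  have h3 := z.im_pos
  have h4 : C.r j ^ 2 ≤ (C.x j / 2) ^ 2 := by gcongr
  by_contra hcon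
  push Not at hcon
  nlinarith [sq_nonneg (z.re + z.im - C.x j), sq_nonneg (z.re - z.im), sq_nonneg (z.re - C.x j / 2)]

theorem w0_eventually (hN : C.Nice) (ℓ : ℝ) (j : ℕ) (z : ℍ) (h : C.inC j z) :
    ∀ᶠ y in 𝓝 z, w0 ℓ y = C.mul ℓ j • y := by
  rcases lt_or_gt_of_ne (hN.ne j) with hx | hx
  · have h1 := re_neg_of_inC hN hx h
    have h2 : ∀ᶠ y : ℍ in 𝓝 z, y.re < 0 :=
      UpperHalfPlane.continuous_re.continuousAt.eventually (gt_mem_nhds h1)
    filter_upwards [h2] with y hy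
    rw [w0_of_nonpos ℓ hy.le]
    apply UpperHalfPlane.ext
    rw [coe_pos_real_smul, mul_neg' hx, one_smul]
  · have h1 := im_lt_re_of_inC hN hx h
    have h2 : ∀ᶠ y : ℍ in 𝓝 z, y.im < y.re :=
      (isOpen_lt UpperHalfPlane.continuous_im UpperHalfPlane.continuous_re).mem_nhds h1
    filter_upwards [h2] with y hy
    rw [w0_of_le ℓ hy.le]
    apply UpperHalfPlane.ext
    rw [coe_pos_real_smul, coe_pos_real_smul, mul_pos' hx]

/-- The forward pair. -/
def fwd (hN : C.Nice) (ℓ : ℝ) : Pair where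
  C := C
  C' := scale hN ℓ
  μ := C.mul ℓ
  hx _ := rfl
  hr _ := rfl
  f := w0 ℓ
  hf j z h := w0_eventually hN ℓ j z h
  k := (good_w0 ℓ).choose
  good := (good_w0 ℓ).choose_spec.2.2

theorem scale_mul (hN : C.Nice) (ℓ : ℝ) (j : ℕ) :
    ((scale hN ℓ).mul (-ℓ) j : ℝ) = (C.mul ℓ j : ℝ)⁻¹ := by
  rcases lt_or_gt_of_ne (hN.ne j) with hx | hx
  · have h1 : (scale hN ℓ).x j < 0 := by
      show (C.mul ℓ j : ℝ) * C.x j < 0
      have := (C.mul ℓ j).2
      nlinarith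
    rw [mul_neg' h1, mul_neg' hx, inv_one]
  · have h1 : 0 < (scale hN ℓ).x j := by
      show 0 < (C.mul ℓ j : ℝ) * C.x j
      exact _root_.mul_pos (C.mul ℓ j).2 hx
    rw [mul_pos' h1, mul_pos' hx, Real.exp_neg]

/-- The backward pair. -/
def bwd (hN : C.Nice) (ℓ : ℝ) : Pair where
  C := scale hN ℓ
  C' := C
  μ := (scale hN ℓ).mul (-ℓ)
  hx j := by
    rw [scale_mul]
    show C.x j = (C.mul ℓ j : ℝ)⁻¹ * (C.mul ℓ j * C.x j)
    have := (C.mul ℓ j).2.ne'
    field_simp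
  hr j := by
    rw [scale_mul]
    show C.r j = (C.mul ℓ j : ℝ)⁻¹ * (C.mul ℓ j * C.r j)
    have := (C.mul ℓ j).2.ne'
    field_simp
  f := w0 (-ℓ)
  hf j z h := w0_eventually (scale_nice hN ℓ) (-ℓ) j z h
  k := (good_w0 (-ℓ)).choose
  good := (good_w0 (-ℓ)).choose_spec.2.2

/-- The quasiconformal homeomorphism. -/
def wh (hN : C.Nice) (ℓ : ℝ) : ℍ ≃ₜ ℍ :=
  Pair.homeo (fwd hN ℓ) (bwd hN ℓ) rfl rfl (fun z => w0_neg_w0 ℓ z) (fun z => by
    have := w0_neg_w0 (-ℓ) z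
    rw [neg_neg] at this
    exact this)

theorem wh_equiv (hN : C.Nice) (ℓ : ℝ) (j : ℕ) (z : ℍ) :
    wh hN ℓ (C.t j • z) = (scale hN ℓ).t j • wh hN ℓ z := (fwd hN ℓ).E_equiv j z

theorem wh_qc (hN : C.Nice) (ℓ : ℝ) : IsQuasiconformal (wh hN ℓ) :=
  isQuasiconformal_of_good (good_w0 ℓ).choose_spec.1 (good_w0 ℓ).choose_spec.2.1
    (fun z => (fwd hN ℓ).E_good z)

theorem conjBy_wh (hN : C.Nice) (ℓ : ℝ) :
    conjBy (wh hN ℓ) C.G = (scale hN ℓ).G.map act := by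
  have key : ∀ j k, (MulAut.conj ((wh hN ℓ).toEquiv : Equiv.Perm ℍ)).toMonoidHom
      (act (C.τ j * C.τ k)) = act ((scale hN ℓ).τ j * (scale hN ℓ).τ k) := by
    intro j k
    ext z : 1
    show (wh hN ℓ) (act (C.τ j * C.τ k) ((wh hN ℓ).symm z)) = _
    rw [act_mul, act_mul, act_τ, act_τ, act_τ, act_τ, wh_equiv, wh_equiv,
      Homeomorph.apply_symm_apply]
  unfold conjBy G
  rw [MonoidHom.map_closure, MonoidHom.map_closure, MonoidHom.map_closure]
  congr 1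
  ext g
  constructor
  · rintro ⟨_, ⟨_, ⟨⟨j, k⟩, rfl⟩, rfl⟩, rfl⟩
    exact ⟨_, ⟨(j, k), rfl⟩, (key j k).symm⟩
  · rintro ⟨_, ⟨⟨j, k⟩, rfl⟩, rfl⟩
    exact ⟨_, ⟨_, ⟨(j, k), rfl⟩, rfl⟩, key j k⟩

theorem wh_mem (hN : C.Nice) (ℓ : ℝ) : wh hN ℓ ∈ Tqc C.G := by
  refine ⟨wh_qc hN ℓ, ?_⟩
  rw [conjBy_wh]
  exact Subgroup.map_le_range _ _

theorem deform_wh (hN : C.Nice) (ℓ : ℝ) : deform (wh hN ℓ) C.G = (scale hN ℓ).G := by
  unfold deform
  rw [conjBy_wh, Subgroup.comap_map_eq_self_of_injective act_injective]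

end Config

/-- The identity is good. -/
theorem good_id (z : ℍ) : Good (Homeomorph.refl ℍ) 0 z := by
  have h : toC (Homeomorph.refl ℍ) =ᶠ[𝓝 (z : ℂ)] fun ζ => ζ := by
    rw [EventuallyEq, ← isOpenEmbedding_coe.map_nhds_eq, eventually_map]
    filter_upwards with y
    rw [toC_coe]
    rfl
  refine ⟨contDiffAt_id.congr_of_eventuallyEq h, ?_⟩
  unfold dzbar dz
  rw [h.fderiv_eq (𝕜 := ℝ), fderiv_fun_id]
  simp

theorem refl_mem (Γ : Subgroup PSL(2, ℝ)) : Homeomorph.refl ℍ ∈ Tqc Γ := by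
  refine ⟨isQuasiconformal_of_good le_rfl one_pos good_id, ?_⟩
  unfold conjBy
  have : MulAut.conj ((Homeomorph.refl ℍ).toEquiv : Equiv.Perm ℍ) = 1 := by
    ext g : 1
    show (1 : Equiv.Perm ℍ) * g * (1 : Equiv.Perm ℍ)⁻¹ = g
    simp
  rw [this]
  rintro _ ⟨_, ⟨g, _, rfl⟩, rfl⟩
  exact ⟨g, rfl⟩

theorem deform_refl (Γ : Subgroup PSL(2, ℝ)) : deform (Homeomorph.refl ℍ) Γ = Γ := by
  unfold deform conjBy
  have : (MulAut.conj ((Homeomorph.refl ℍ).toEquiv : Equiv.Perm ℍ)).toMonoidHom =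
      MonoidHom.id _ := by
    ext g : 1
    show (1 : Equiv.Perm ℍ) * g * (1 : Equiv.Perm ℍ)⁻¹ = g
    simp
  rw [this, Subgroup.map_id, Subgroup.comap_map_eq_self_of_injective act_injective]

theorem C₀_nice : C₀.Nice where
  ne := pt_ne
  half := pt_half_abs

end Pool.Agent.H75.CE
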