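import Pool.Agent.H75.CE.Defs

/-!
Configurations of half-turns: discs `|z - x j| < r j` with pairwise disjoint closures, radii tending
to zero, and the half-turns `t_j(z) = x_j - r_j^2/(z - x_j)`.
-/

set_option autoImplicit false

open UpperHalfPlane Matrix
open scoped MatrixGroups Topology

noncomputable section

namespace Pool.Agent.H75.CE

/-- The half-turn about the point `x + i r`. -/
def ht (x r : ℝ) (hr : 0 < r) : SL(2, ℝ) :=
  ⟨!![x / r, -(x ^ 2 + r ^ 2) / r; 1 / r, -x / r], by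
    rw [Matrix.det_fin_two_of]
    field_simp
    ring⟩

theorem sub_real_ne_zero (z : ℍ) (x : ℝ) : (z : ℂ) - x ≠ 0 := by
  intro h
  have h2 := congrArg Complex.im h
  simp at h2
  exact z.im_ne_zero h2

theorem coe_ht_smul (x r : ℝ) (hr : 0 < r) (z : ℍ) :
    ((ht x r hr • z : ℍ) : ℂ) = x - r ^ 2 / ((z : ℂ) - x) := by
  rw [coe_specialLinearGroup_apply]
  have hr' : (r : ℂ) ≠ 0 := by exact_mod_cast hr.ne'
  have hz := sub_real_ne_zero z x
  simp only [ht, Algebra.algebraMap_self, RingHom.id_apply, Matrix.of_apply, Matrix.cons_val',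
    Matrix.cons_val_zero, Matrix.cons_val_one, Matrix.cons_val_fin_one]
  push_cast
  have h1 : (1 / (r : ℂ)) * z + -x / r = (z - x) / r := by ring
  have h2 : (x : ℂ) / r * z + -(x ^ 2 + r ^ 2) / r = (x * (z - x) - r ^ 2) / r := by ring
  rw [h1, h2]
  field_simp

/-- `Nsq x z = |z - x|^2`. -/
def Nsq (x : ℝ) (z : ℍ) : ℝ := Complex.normSq ((z : ℂ) - x)

theorem Nsq_eq (x : ℝ) (z : ℍ) : Nsq x z = (z.re - x) ^ 2 + z.im ^ 2 := by
  simp [Nsq, Complex.normSq_apply]
  ring

theorem Nsq_pos (x : ℝ) (z : ℍ) : 0 < Nsq x z := by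
  rw [Nsq_eq]
  have := z.im_pos
  positivity

theorem Nsq_eq_norm (x : ℝ) (z : ℍ) : Nsq x z = ‖(z : ℂ) - x‖ ^ 2 := by
  rw [Nsq, Complex.normSq_eq_norm_sq]

theorem Nsq_ht (x r : ℝ) (hr : 0 < r) (z : ℍ) :
    Nsq x (ht x r hr • z) = r ^ 4 / Nsq x z := by
  unfold Nsq
  rw [coe_ht_smul]
  have : ((x : ℂ) - r ^ 2 / ((z : ℂ) - x) - x) = -(r ^ 2 / ((z : ℂ) - x)) := by ring
  rw [this, Complex.normSq_neg, Complex.normSq_div]
  congr 1
  have : ((r : ℂ) ^ 2) = ((r ^ 2 : ℝ) : ℂ) := by push_cast; ring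
  rw [this, Complex.normSq_ofReal]
  ring

theorem ht_im (x r : ℝ) (hr : 0 < r) (z : ℍ) :
    (ht x r hr • z).im = r ^ 2 * z.im / Nsq x z := by
  have h := congrArg Complex.im (coe_ht_smul x r hr z)
  have h2 : ((r : ℂ) ^ 2) = ((r ^ 2 : ℝ) : ℂ) := by push_cast; ring
  rw [h2] at h
  simp only [Complex.sub_im, Complex.ofReal_im, Complex.div_im, Complex.ofReal_re] at h
  have h3 : ((ht x r hr • z : ℍ) : ℂ).im = (ht x r hr • z).im := rfl
  rw [h3] at h
  rw [h]
  simp only [Complex.sub_re, Complex.ofReal_re, Nsq]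
  simp

theorem ht_re (x r : ℝ) (hr : 0 < r) (z : ℍ) :
    (ht x r hr • z).re = x - r ^ 2 * (z.re - x) / Nsq x z := by
  have h := congrArg Complex.re (coe_ht_smul x r hr z)
  have h2 : ((r : ℂ) ^ 2) = ((r ^ 2 : ℝ) : ℂ) := by push_cast; ring
  rw [h2] at h
  simp only [Complex.sub_re, Complex.ofReal_re, Complex.div_re, Complex.ofReal_im] at h
  have h3 : ((ht x r hr • z : ℍ) : ℂ).re = (ht x r hr • z).re := rfl
  rw [h3] at h
  rw [h]
  simp only [Complex.sub_im, Complex.ofReal_im, Nsq]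
  simp

theorem ht_ht (x r : ℝ) (hr : 0 < r) (z : ℍ) : ht x r hr • ht x r hr • z = z := by
  apply UpperHalfPlane.ext
  rw [coe_ht_smul, coe_ht_smul]
  have hz := sub_real_ne_zero z x
  have hr' : (r : ℂ) ≠ 0 := by exact_mod_cast hr.ne'
  have : ((x : ℂ) - r ^ 2 / ((z : ℂ) - x) - x) = -(r ^ 2 / ((z : ℂ) - x)) := by ring
  rw [this]
  field_simp
  ring

/-- A configuration of discs centred on the real line with pairwise disjoint closures and radii
tending to zero. -/
structure Config where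
  /-- centres -/
  x : ℕ → ℝ
  /-- radii -/
  r : ℕ → ℝ
  r_pos : ∀ j, 0 < r j
  sep : ∀ j k, j ≠ k → r j + r k < |x j - x k|
  fin : ∀ y, 0 < y → {j | y ≤ r j}.Finite

namespace Config

variable (C : Config)

/-- The `j`-th half-turn. -/
def t (j : ℕ) : SL(2, ℝ) := ht (C.x j) (C.r j) (C.r_pos j)

/-- `z` lies in the open `j`-th disc. -/
def inO (j : ℕ) (z : ℍ) : Prop := Nsq (C.x j) z < C.r j ^ 2

/-- `z` lies in the closed `j`-th disc. -/
def inC (j : ℕ) (z : ℍ) : Prop := Nsq (C.x j) z ≤ C.r j ^ 2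

/-- The fundamental domain. -/
def D : Set ℍ := {z | ∀ j, ¬ C.inO j z}

variable {C}

theorem inO.inC {j : ℕ} {z : ℍ} (h : C.inO j z) : C.inC j z := le_of_lt h

theorem tt (j : ℕ) (z : ℍ) : C.t j • C.t j • z = z := ht_ht _ _ _ _

theorem inC_iff (j : ℕ) (z : ℍ) : C.inC j z ↔ ‖(z : ℂ) - C.x j‖ ≤ C.r j := by
  unfold inC
  rw [Nsq_eq_norm]
  have := C.r_pos j
  exact ⟨fun h => le_of_sq_le_sq h this.le, fun h => by gcongr⟩

theorem inO_iff (j : ℕ) (z : ℍ) : C.inO j z ↔ ‖(z : ℂ) - C.x j‖ < C.r j := by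
  unfold inO
  rw [Nsq_eq_norm]
  have := C.r_pos j
  exact ⟨fun h => lt_of_pow_lt_pow_left₀ 2 this.le h, fun h => by gcongr⟩

theorem inO_t {j : ℕ} {z : ℍ} : C.inO j (C.t j • z) ↔ ¬ C.inC j z := by
  unfold inO inC t
  rw [Nsq_ht]
  have h1 := C.r_pos j
  have h2 := Nsq_pos (C.x j) z
  rw [div_lt_iff₀ h2, not_le]
  constructor
  · intro h
    have : 0 < C.r j ^ 2 := by positivity
    nlinarith
  · intro h
    have : 0 < C.r j ^ 2 := by positivity
    nlinarith

theorem inC_t {j : ℕ} {z : ℍ} : C.inC j (C.t j • z) ↔ ¬ C.inO j z := by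
  have := inO_t (C := C) (j := j) (z := C.t j • z)
  rw [tt] at this
  rw [this, not_not]

theorem eq_of_inC {j k : ℕ} {z : ℍ} (h1 : C.inC j z) (h2 : C.inC k z) : j = k := by
  by_contra hne
  rw [inC_iff] at h1 h2
  have h3 := C.sep j k hne
  have h4 : |C.x j - C.x k| ≤ ‖(z : ℂ) - C.x k‖ + ‖(z : ℂ) - C.x j‖ := by
    have : ((C.x j - C.x k : ℝ) : ℂ) = ((z : ℂ) - C.x k) - ((z : ℂ) - C.x j) := by
      push_cast; ring
    rw [← Real.norm_eq_abs, ← Complex.norm_real, this]
    exact norm_sub_le _ _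
  linarith

theorem im_lt_of_inO {j : ℕ} {z : ℍ} (h : C.inO j z) : z.im < C.r j := by
  unfold inO at h
  rw [Nsq_eq] at h
  have h1 := C.r_pos j
  have h2 := z.im_pos
  nlinarith [sq_nonneg (z.re - C.x j)]

theorem im_le_of_inC {j : ℕ} {z : ℍ} (h : C.inC j z) : z.im ≤ C.r j := by
  unfold inC at h
  rw [Nsq_eq] at h
  have h1 := C.r_pos j
  have h2 := z.im_pos
  nlinarith [sq_nonneg (z.re - C.x j)]

theorem t_im (j : ℕ) (z : ℍ) : (C.t j • z).im = C.r j ^ 2 * z.im / Nsq (C.x j) z :=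
  ht_im _ _ _ _

theorem im_lt_t_im {j : ℕ} {z : ℍ} (h : C.inO j z) : z.im < (C.t j • z).im := by
  rw [t_im, lt_div_iff₀ (Nsq_pos _ _)]
  unfold inO at h
  have := z.im_pos
  nlinarith

/-- Lower bound for the distance of points of the `k`-th disc from the `j`-th centre. -/
theorem norm_sub_ge {j k : ℕ} {z : ℍ} (h : C.inC k z) :
    |C.x j - C.x k| - C.r k ≤ ‖(z : ℂ) - C.x j‖ := by
  rw [inC_iff] at h
  have h4 : |C.x j - C.x k| ≤ ‖(z : ℂ) - C.x k‖ + ‖(z : ℂ) - C.x j‖ := by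
    have : ((C.x j - C.x k : ℝ) : ℂ) = ((z : ℂ) - C.x k) - ((z : ℂ) - C.x j) := by
      push_cast; ring
    rw [← Real.norm_eq_abs, ← Complex.norm_real, this]
    exact norm_sub_le _ _
  linarith

variable (C)

/-- The descent relation: `y = t_j z` where `z` is in the open `j`-th disc. -/
def R (y z : ℍ) : Prop := ∃ j, C.inO j z ∧ y = C.t j • z

/-- A common bound for the radii. -/
theorem exists_bound : ∃ B : ℝ, 0 < B ∧ ∀ j, C.r j ≤ B := by
  have hfin := C.fin 1 one_pos
  obtain ⟨B, hB⟩ := (hfin.image C.r).bddAbove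
  refine ⟨max B 1, by positivity, fun j => ?_⟩
  by_cases hj : 1 ≤ C.r j
  · exact le_max_of_le_left (hB ⟨j, hj, rfl⟩)
  · exact le_max_of_le_right (by linarith)

/-- For a finite set of discs the relevant expansion constants are bounded below by some `c > 1`. -/
theorem exists_const (y : ℝ) (hy : 0 < y) :
    ∃ c : ℝ, 1 < c ∧ ∀ j l, y ≤ C.r j → y ≤ C.r l → j ≠ l →
      c * C.r j ^ 2 ≤ (|C.x j - C.x l| - C.r l) ^ 2 := by
  have hfin := C.fin y hy
  let S : Set (ℕ × ℕ) := {p | y ≤ C.r p.1 ∧ y ≤ C.r p.2 ∧ p.1 ≠ p.2}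
  have hS : S.Finite := by
    apply (hfin.prod hfin).subset
    rintro ⟨a, b⟩ ⟨h1, h2, -⟩
    exact ⟨h1, h2⟩
  let g : ℕ × ℕ → ℝ := fun p => (|C.x p.1 - C.x p.2| - C.r p.2) ^ 2 / C.r p.1 ^ 2
  have hg : ∀ p ∈ S, 1 < g p := by
    rintro ⟨a, b⟩ ⟨h1, h2, h3⟩
    have hs := C.sep a b h3
    have ha := C.r_pos a
    show 1 < (|C.x a - C.x b| - C.r b) ^ 2 / C.r a ^ 2
    rw [lt_div_iff₀ (by positivity), one_mul]
    have : C.r a < |C.x a - C.x b| - C.r b := by linarith
    gcongr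
  by_cases hne : S.Nonempty
  · obtain ⟨p, hp, hmin⟩ := hS.exists_minimalFor g S hne
    refine ⟨g p, hg p hp, fun j l hj hl hjl => ?_⟩
    have hq : (j, l) ∈ S := ⟨hj, hl, hjl⟩
    have h1 : g p ≤ g (j, l) := by
      rcases le_total (g p) (g (j, l)) with h | h
      · exact h
      · exact hmin hq h
    have hj0 := C.r_pos j
    calc g p * C.r j ^ 2 ≤ g (j, l) * C.r j ^ 2 := by gcongr
      _ = _ := by
        show (|C.x j - C.x l| - C.r l) ^ 2 / C.r j ^ 2 * C.r j ^ 2 = _
        field_simp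
  · refine ⟨2, one_lt_two, fun j l hj hl hjl => ?_⟩
    exact absurd ⟨(j, l), hj, hl, hjl⟩ hne

/-- Every point reaches the fundamental domain after finitely many steps. -/
theorem wf : WellFounded C.R := by
  obtain ⟨B, hB, hBr⟩ := C.exists_bound
  constructor
  intro z0
  obtain ⟨c, hc, hcb⟩ := C.exists_const z0.im z0.im_pos
  have key : ∀ n : ℕ, ∀ z : ℍ, z0.im ≤ z.im → B < z.im * c ^ n → Acc C.R z := by
    intro n
    induction n with
    | zero =>
      intro z _ hz
      constructor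
      rintro y ⟨j, hj, -⟩
      have := im_lt_of_inO hj
      have := hBr j
      simp at hz
      linarith
    | succ n ih =>
      intro z hz0 hz
      constructor
      rintro y ⟨j, hj, rfl⟩
      by_cases hy : ∃ l, C.inO l (C.t j • z)
      · obtain ⟨l, hl⟩ := hy
        have hjl : j ≠ l := by
          rintro rfl
          exact (inO_t.mp hl) hj.inC
        have h1 : z0.im ≤ C.r j := hz0.trans (im_lt_of_inO hj).le
        have h3 := im_lt_t_im hj
        have h2 : z0.im ≤ C.r l := by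
          have := im_lt_of_inO hl
          linarith
        have h4 := hcb j l h1 h2 hjl
        have h5 := norm_sub_ge (j := j) hl.inC
        have h6 : 0 ≤ |C.x j - C.x l| - C.r l := by
          have := C.sep j l hjl
          have := C.r_pos j
          linarith
        have h7 : c * C.r j ^ 2 ≤ Nsq (C.x j) (C.t j • z) := by
          rw [Nsq_eq_norm]
          refine h4.trans ?_
          gcongr
        have h8 : c * z.im ≤ (C.t j • z).im := by
          have e1 : Nsq (C.x j) (C.t j • z) = C.r j ^ 4 / Nsq (C.x j) z := Nsq_ht _ _ _ _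
          rw [e1] at h7
          rw [t_im]
          have hr := C.r_pos j
          have hn := Nsq_pos (C.x j) z
          rw [le_div_iff₀ hn] at h7 ⊢
          have hi := z.im_pos
          have h9 : c * Nsq (C.x j) z ≤ C.r j ^ 2 := by
            have : 0 < C.r j ^ 2 := by positivity
            nlinarith
          nlinarith
        apply ih
        · linarith
        · calc B < z.im * c ^ (n + 1) := hz
            _ = (c * z.im) * c ^ n := by ring
            _ ≤ _ := by gcongr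
      · constructor
        rintro y ⟨l, hl, -⟩
        exact absurd ⟨l, hl⟩ hy
  have htend : Filter.Tendsto (fun n : ℕ => z0.im * c ^ n) Filter.atTop Filter.atTop :=
    (tendsto_pow_atTop_atTop_of_one_lt hc).const_mul_atTop z0.im_pos
  obtain ⟨n, hn⟩ := (htend.eventually_gt_atTop B).exists
  exact key n z0 le_rfl hn

end Config

end Pool.Agent.H75.CE
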