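import Mathlib

/-!
Definitions for the statement on critical exponents over the quasiconformal deformation space.
-/

set_option autoImplicit false

open UpperHalfPlane Matrix MeasureTheory
open scoped MatrixGroups Topology

noncomputable section

namespace Pool.Agent.H75.CE

/-- The central elements of `SL(2,ℝ)` act trivially on the upper half plane. -/
theorem center_le_ker :
    Subgroup.center SL(2, ℝ) ≤ (MulAction.toPermHom SL(2, ℝ) ℍ).ker := by
  intro g hg
  rw [MonoidHom.mem_ker]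
  ext z : 1
  have h := Matrix.SpecialLinearGroup.mem_center_iff.mp hg
  obtain ⟨a, ha, hag⟩ := h
  change g • z = z
  have h00 : g 0 0 = a := by
    have := congrFun (congrFun hag 0) 0
    simpa using this.symm
  have h01 : g 0 1 = 0 := by
    have := congrFun (congrFun hag 0) 1
    simpa using this.symm
  have h10 : g 1 0 = 0 := by
    have := congrFun (congrFun hag 1) 0
    simpa using this.symm
  have h11 : g 1 1 = a := by
    have := congrFun (congrFun hag 1) 1
    simpa using this.symm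
  have ha0 : a ≠ 0 := by
    rintro rfl
    simp at ha
  apply UpperHalfPlane.ext
  rw [coe_specialLinearGroup_apply]
  simp only [h00, h01, h10, h11, Algebra.algebraMap_self, RingHom.id_apply]
  have : (a : ℂ) ≠ 0 := by exact_mod_cast ha0
  simp [this]

/-- The action of `PSL(2,ℝ)` on the upper half plane `ℍ` by Moebius transformations
`z ↦ (a z + b) / (c z + d)`. -/
def act : PSL(2, ℝ) →* Equiv.Perm ℍ :=
  QuotientGroup.lift (Subgroup.center SL(2, ℝ)) (MulAction.toPermHom SL(2, ℝ) ℍ) center_le_ker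

/-- A Fuchsian group: a discrete subgroup of `PSL(2,ℝ)`. -/
def IsFuchsian (Γ : Subgroup PSL(2, ℝ)) : Prop := DiscreteTopology Γ

/-- The inclusion of the circle at infinity `∂ℍ = ℝ ∪ {∞}` into the Riemann sphere. -/
def bdry (ξ : OnePoint ℝ) : OnePoint ℂ := OnePoint.map (fun x : ℝ => (x : ℂ)) ξ

/-- The limit set of `Γ`: the points of the circle at infinity `ℝ ∪ {∞}` that are accumulated
(in the Riemann sphere) by every orbit of `Γ` in `ℍ`. -/
def limitSet (Γ : Subgroup PSL(2, ℝ)) : Set (OnePoint ℝ) :=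
  {ξ | ∀ z : ℍ, bdry ξ ∈ closure (Set.range fun γ : Γ => (((act γ z : ℍ) : ℂ) : OnePoint ℂ))}

/-- `Γ` is of the first kind if its limit set is the whole circle at infinity. -/
def IsFirstKind (Γ : Subgroup PSL(2, ℝ)) : Prop := limitSet Γ = Set.univ

/-- The critical exponent of `Γ` with respect to the base point `o`:
the infimum of all `s > 0` for which `∑ exp (-s d(o, γ o))` converges. -/
def critExp (Γ : Subgroup PSL(2, ℝ)) (o : ℍ) : ℝ :=
  sInf {s : ℝ | 0 < s ∧ Summable fun γ : Γ => Real.exp (-s * dist o (act γ o))}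

/-- A self-map of the upper half plane regarded as a map `ℂ → ℂ`
(only its values on the upper half plane matter). -/
def toC (w : ℍ → ℍ) : ℂ → ℂ := fun z => ((w (ofComplex z) : ℍ) : ℂ)

/-- The Wirtinger derivative `∂f = (f_x - i f_y)/2`. -/
def dz (f : ℂ → ℂ) (z : ℂ) : ℂ := (fderiv ℝ f z 1 - Complex.I * fderiv ℝ f z Complex.I) / 2

/-- The Wirtinger derivative `∂̄f = (f_x + i f_y)/2`. -/
def dzbar (f : ℂ → ℂ) (z : ℂ) : ℂ := (fderiv ℝ f z 1 + Complex.I * fderiv ℝ f z Complex.I) / 2

/-- Absolute continuity on lines in the upper half plane: for every closed rectangle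
`[a,b] × [c,d]` in the upper half plane, the map is absolutely continuous on almost every
horizontal and on almost every vertical segment of the rectangle. -/
def IsACL (f : ℂ → ℂ) : Prop :=
  ∀ a b c d : ℝ, a ≤ b → 0 < c → c ≤ d →
    (∀ᵐ y : ℝ, y ∈ Set.Icc c d →
      AbsolutelyContinuousOnInterval (fun x : ℝ => f (⟨x, y⟩ : ℂ)) a b) ∧
    (∀ᵐ x : ℝ, x ∈ Set.Icc a b →
      AbsolutelyContinuousOnInterval (fun y : ℝ => f (⟨x, y⟩ : ℂ)) c d)

/-- Analytic definition of a (sense-preserving) quasiconformal self-homeomorphism of `ℍ`: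
the homeomorphism is absolutely continuous on lines, almost everywhere (real) differentiable,
and satisfies `|∂̄w| ≤ k |∂w|` almost everywhere, for some constant `k < 1`. -/
def IsQuasiconformal (w : ℍ ≃ₜ ℍ) : Prop :=
  IsACL (toC w) ∧ ∃ k : ℝ, 0 ≤ k ∧ k < 1 ∧
    ∀ᵐ z : ℂ, 0 < z.im → DifferentiableAt ℝ (toC w) z ∧ ‖dzbar (toC w) z‖ ≤ k * ‖dz (toC w) z‖

/-- The conjugate `w Γ w⁻¹`, as a group of bijections of `ℍ`. -/
def conjBy (w : ℍ ≃ₜ ℍ) (Γ : Subgroup PSL(2, ℝ)) : Subgroup (Equiv.Perm ℍ) :=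
  (Γ.map act).map (MulAut.conj (w.toEquiv : Equiv.Perm ℍ)).toMonoidHom

/-- The quasiconformal homeomorphisms `w : ℍ → ℍ` with `w Γ₀ w⁻¹ ⊂ PSL(2,ℝ)`; they represent the
points `[w]` of the quasiconformal deformation space `T_qc(Γ₀)`. -/
def Tqc (Γ₀ : Subgroup PSL(2, ℝ)) : Set (ℍ ≃ₜ ℍ) :=
  {w | IsQuasiconformal w ∧ conjBy w Γ₀ ≤ act.range}

/-- The group `Γ_w = w Γ₀ w⁻¹`, as a subgroup of `PSL(2,ℝ)`. -/
def deform (w : ℍ ≃ₜ ℍ) (Γ₀ : Subgroup PSL(2, ℝ)) : Subgroup PSL(2, ℝ) :=
  (conjBy w Γ₀).comap act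

end Pool.Agent.H75.CE
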