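import Pool.Agent.H75.CE.Words

/-!
Equivariant extension of a map defined on the fundamental domain.
-/

set_option autoImplicit false

open UpperHalfPlane Matrix Filter
open scoped MatrixGroups Topology

noncomputable section

namespace Pool.Agent.H75.CE

namespace Config

variable (C : Config)

open Classical in
/-- The extension of `f` from the fundamental domain, using the maps `s j` on the target side. -/
def ext (s : ℕ → ℍ → ℍ) (f : ℍ → ℍ) : ℍ → ℍ :=
  C.wf.fix (fun z E => if h : ∃ j, C.inO j z then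
    s h.choose (E (C.t h.choose • z) ⟨h.choose, h.choose_spec, rfl⟩) else f z)

variable {C} {s : ℕ → ℍ → ℍ} {f : ℍ → ℍ}

theorem ext_of_D {z : ℍ} (hz : z ∈ C.D) : C.ext s f z = f z := by
  rw [ext, WellFounded.fix_eq, dif_neg]
  rintro ⟨j, hj⟩
  exact hz j hj

theorem ext_of_inO {j : ℕ} {z : ℍ} (hz : C.inO j z) :
    C.ext s f z = s j (C.ext s f (C.t j • z)) := by
  have h : ∃ j, C.inO j z := ⟨j, hz⟩
  have h1 : h.choose = j := eq_of_inC h.choose_spec.inC hz.inC
  conv_lhs => rw [ext, WellFounded.fix_eq, dif_pos h]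
  show s h.choose (C.ext s f (C.t h.choose • z)) = _
  rw [h1]

theorem mem_D_of_bd {j : ℕ} {z : ℍ} (h1 : C.inC j z) (h2 : ¬ C.inO j z) : z ∈ C.D := by
  intro k hk
  have := eq_of_inC h1 hk.inC
  subst this
  exact h2 hk

theorem ext_equiv (hs : ∀ j z, s j (s j z) = z)
    (hb : ∀ j z, C.inC j z → ¬ C.inO j z → f (C.t j • z) = s j (f z)) (j : ℕ) (z : ℍ) :
    C.ext s f (C.t j • z) = s j (C.ext s f z) := by
  by_cases h1 : C.inO j z
  · rw [ext_of_inO h1, hs]
  · by_cases h2 : C.inC j z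
    · have h3 : C.inC j (C.t j • z) := inC_t.mpr h1
      have h4 : ¬ C.inO j (C.t j • z) := by
        rw [inO_t, not_not]; exact h2
      rw [ext_of_D (mem_D_of_bd h3 h4), ext_of_D (mem_D_of_bd h2 h1), hb j z h2 h1]
    · have h3 : C.inO j (C.t j • z) := inO_t.mpr h2
      rw [ext_of_inO h3, tt]

theorem isOpen_inO (j : ℕ) : IsOpen {z : ℍ | C.inO j z} := by
  simp only [inO, Nsq_eq]
  exact isOpen_lt (by fun_prop) continuous_const

theorem isClosed_inC (j : ℕ) : IsClosed {z : ℍ | C.inC j z} := by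
  simp only [inC, Nsq_eq]
  exact isClosed_le (by fun_prop) continuous_const

/-- Local finiteness. -/
theorem loc (z : ℍ) : ∀ᶠ y in 𝓝 z, ∀ l, C.inO l y → C.inC l z := by
  have hfin := C.fin (z.im / 2) (half_pos z.im_pos)
  have h1 : ∀ᶠ y in 𝓝 z, z.im / 2 < y.im := by
    have : IsOpen {y : ℍ | z.im / 2 < y.im} := isOpen_lt continuous_const (by fun_prop)
    exact this.mem_nhds (by simp [z.im_pos])
  have h2 : ∀ l ∈ {j | z.im / 2 ≤ C.r j}, ∀ᶠ y in 𝓝 z, C.inO l y → C.inC l z := by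
    intro l _
    by_cases hl : C.inC l z
    · exact Eventually.of_forall fun y _ => hl
    · have : {z : ℍ | C.inC l z}ᶜ ∈ 𝓝 z := (isClosed_inC l).isOpen_compl.mem_nhds hl
      filter_upwards [this] with y hy h
      exact absurd h.inC hy
  have h3 := (eventually_all_finite hfin).mpr h2
  filter_upwards [h1, h3] with y hy1 hy3 l hl
  apply hy3 l _ hl
  have := im_lt_of_inO hl
  show z.im / 2 ≤ C.r l
  linarith

end Config

/-- `f` is continuously differentiable at `z` with dilatation bounded by `k`. -/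
def Good (f : ℍ → ℍ) (k : ℝ) (z : ℍ) : Prop :=
  ContDiffAt ℝ 1 (toC f) z ∧ ‖dzbar (toC f) z‖ ≤ k * ‖dz (toC f) z‖

theorem toC_coe (f : ℍ → ℍ) (z : ℍ) : toC f z = f z := by
  simp [toC, ofComplex_apply]

theorem toC_eventuallyEq {f g : ℍ → ℍ} {z : ℍ} (h : ∀ᶠ y in 𝓝 z, f y = g y) :
    toC f =ᶠ[𝓝 (z : ℂ)] toC g := by
  rw [EventuallyEq, ← isOpenEmbedding_coe.map_nhds_eq, eventually_map]
  filter_upwards [h] with y hy
  rw [toC_coe, toC_coe, hy]

theorem Good.congr {f g : ℍ → ℍ} {k : ℝ} {z : ℍ} (h : ∀ᶠ y in 𝓝 z, f y = g y) (hg : Good g k z) :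
    Good f k z := by
  have h1 := toC_eventuallyEq h
  refine ⟨hg.1.congr_of_eventuallyEq h1, ?_⟩
  have h2 := h1.fderiv_eq (𝕜 := ℝ)
  unfold dzbar dz
  rw [h2]
  exact hg.2

theorem Good.continuousAt {f : ℍ → ℍ} {k : ℝ} {z : ℍ} (hg : Good f k z) : ContinuousAt f z := by
  have h1 : ContinuousAt (toC f) (z : ℂ) := hg.1.continuousAt
  have h2 : ContinuousAt (fun y : ℍ => toC f y) z :=
    ContinuousAt.comp (f := fun y : ℍ => (y : ℂ)) h1 UpperHalfPlane.continuous_coe.continuousAt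
  simp only [toC_coe] at h2
  rw [UpperHalfPlane.isEmbedding_coe.continuousAt_iff]
  exact h2

/-- Decomposition of a real linear map into its complex linear and antilinear parts. -/
theorem lin_decomp (L : ℂ →L[ℝ] ℂ) (h : ℂ) :
    L h = ((L 1 - Complex.I * L Complex.I) / 2) * h +
      ((L 1 + Complex.I * L Complex.I) / 2) * (starRingEnd ℂ) h := by
  have h1 : h = h.re • (1 : ℂ) + h.im • Complex.I := by
    apply Complex.ext <;> simp
  conv_lhs => rw [h1, map_add, map_smul, map_smul]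
  have h2 : (starRingEnd ℂ) h = (h.re : ℂ) - h.im * Complex.I := by
    apply Complex.ext <;> simp
  have h3 : h = (h.re : ℂ) + h.im * Complex.I := by
    apply Complex.ext <;> simp
  rw [h2]
  conv_rhs => rw [h3]
  simp only [Complex.real_smul]
  have h4 : Complex.I * Complex.I = -1 := Complex.I_mul_I
  simp only [Complex.add_re, Complex.ofReal_re, Complex.mul_re, Complex.I_re, mul_zero,
    Complex.ofReal_im, Complex.I_im, mul_one, sub_self, add_zero, Complex.add_im, Complex.mul_im,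
    zero_add]
  linear_combination ((L Complex.I) * h.im) * h4

/-- The chain rule for the dilatation under pre- and post-composition with holomorphic maps. -/
theorem dilatation_comp {F g G : ℂ → ℂ} {z a b : ℂ} (hF : DifferentiableAt ℝ F (g z))
    (hg : HasDerivAt g a z) (hG : HasDerivAt G b (F (g z))) :
    dz (fun ζ => G (F (g ζ))) z = b * a * dz F (g z) ∧
    dzbar (fun ζ => G (F (g ζ))) z = b * (starRingEnd ℂ a) * dzbar F (g z) := by
  have h1 : HasFDerivAt g ((ContinuousLinearMap.toSpanSingleton ℂ a).restrictScalars ℝ) z :=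
    hg.hasFDerivAt.restrictScalars ℝ
  have h2 : HasFDerivAt G ((ContinuousLinearMap.toSpanSingleton ℂ b).restrictScalars ℝ) (F (g z)) :=
    hG.hasFDerivAt.restrictScalars ℝ
  have h3 := (h2.comp z (hF.hasFDerivAt.comp z h1)).fderiv
  set L := fderiv ℝ F (g z) with hL
  have h4 : ∀ v : ℂ, fderiv ℝ (fun ζ => G (F (g ζ))) z v = L (v * a) * b := by
    intro v
    have : (fun ζ => G (F (g ζ))) = G ∘ (F ∘ g) := rfl
    rw [this, h3]
    simp [ContinuousLinearMap.comp_apply, smul_eq_mul]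
  unfold dz dzbar
  rw [h4, h4, ← hL]
  have e1 := lin_decomp L (1 * a)
  have e2 := lin_decomp L (Complex.I * a)
  rw [e1, e2]
  have h5 : Complex.I * Complex.I = -1 := Complex.I_mul_I
  simp only [map_mul, map_one, Complex.conj_I]
  constructor
  · linear_combination (-(((L 1 - Complex.I * L Complex.I) / 2) * a * b) / 2 +
      (((L 1 + Complex.I * L Complex.I) / 2) * (starRingEnd ℂ) a * b) / 2) * h5
  · linear_combination ((((L 1 - Complex.I * L Complex.I) / 2) * a * b) / 2 -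
      (((L 1 + Complex.I * L Complex.I) / 2) * (starRingEnd ℂ) a * b) / 2) * h5

/-- The half-turn as a holomorphic function. -/
def htC (x r : ℝ) (ζ : ℂ) : ℂ := x - r ^ 2 / (ζ - x)

theorem hasDerivAt_htC (x r : ℝ) {ζ : ℂ} (h : ζ - x ≠ 0) :
    HasDerivAt (htC x r) (r ^ 2 / (ζ - x) ^ 2) ζ := by
  have h1 : HasDerivAt (fun ζ : ℂ => ζ - x) 1 ζ := (hasDerivAt_id ζ).sub_const _
  have h2 := (h1.inv h).const_mul ((r : ℂ) ^ 2)
  have h3 := h2.const_sub (x : ℂ)
  convert! h3 using 1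
  ring

theorem contDiffAt_htC (x r : ℝ) {ζ : ℂ} (h : ζ - x ≠ 0) : ContDiffAt ℝ 1 (htC x r) ζ := by
  have h1 : ContDiffAt ℝ 1 (fun ζ : ℂ => ζ - (x : ℂ)) ζ := contDiffAt_id.sub contDiffAt_const
  have h2 : ContDiffAt ℝ 1 (fun ζ : ℂ => (x : ℂ) - (r : ℂ) ^ 2 * (ζ - (x : ℂ))⁻¹) ζ :=
    contDiffAt_const.sub (contDiffAt_const.mul (h1.inv h))
  have h3 : htC x r = fun ζ : ℂ => (x : ℂ) - (r : ℂ) ^ 2 * (ζ - (x : ℂ))⁻¹ := by
    ext ζ
    simp [htC, div_eq_mul_inv]
  rw [h3]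
  exact h2

/-- Goodness is transported by the equivariance relation. -/
theorem good_step {C C' : Config} {E : ℍ → ℍ} {k : ℝ} {j : ℕ} {z : ℍ}
    (hE : ∀ y, E (C.t j • y) = C'.t j • E y) (hg : Good E k (C.t j • z)) : Good E k z := by
  have h0 : ∀ y : ℍ, E y = C'.t j • E (C.t j • y) := fun y => by
    rw [hE, Config.tt]
  have h1 : toC E =ᶠ[𝓝 (z : ℂ)] fun ζ => htC (C'.x j) (C'.r j) (toC E (htC (C.x j) (C.r j) ζ)) := by
    have : {ζ : ℂ | 0 < ζ.im} ∈ 𝓝 (z : ℂ) :=
      (isOpen_lt continuous_const Complex.continuous_im).mem_nhds z.im_pos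
    filter_upwards [this] with ζ hζ
    have h2 : ζ = ((⟨ζ, hζ⟩ : ℍ) : ℂ) := rfl
    set y : ℍ := ⟨ζ, hζ⟩ with hy
    rw [h2, toC_coe, h0 y]
    have h3 : htC (C.x j) (C.r j) (y : ℂ) = ((C.t j • y : ℍ) : ℂ) := (coe_ht_smul _ _ _ _).symm
    rw [h3, toC_coe]
    exact coe_ht_smul _ _ _ _
  have h3 : htC (C.x j) (C.r j) (z : ℂ) = ((C.t j • z : ℍ) : ℂ) := (coe_ht_smul _ _ _ _).symm
  have hz := sub_real_ne_zero z (C.x j)
  have hz2 := sub_real_ne_zero (E (C.t j • z)) (C'.x j)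
  obtain ⟨hg1, hg2⟩ := hg
  have hg3 : DifferentiableAt ℝ (toC E) (htC (C.x j) (C.r j) (z : ℂ)) := by
    rw [h3]; exact hg1.differentiableAt (by norm_num)
  have h4 := dilatation_comp (G := htC (C'.x j) (C'.r j)) hg3 (hasDerivAt_htC (C.x j) (C.r j) hz)
    (hasDerivAt_htC (C'.x j) (C'.r j) (by rw [h3, toC_coe]; exact hz2))
  constructor
  · refine ContDiffAt.congr_of_eventuallyEq ?_ h1
    have h5 : ContDiffAt ℝ 1 (htC (C'.x j) (C'.r j)) (toC E (htC (C.x j) (C.r j) z)) := by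
      apply contDiffAt_htC; rw [h3, toC_coe]; exact hz2
    have h6 : ContDiffAt ℝ 1 (toC E) (htC (C.x j) (C.r j) z) := by rw [h3]; exact hg1
    exact ContDiffAt.comp (g := htC (C'.x j) (C'.r j)) (z : ℂ) h5
      (h6.comp (z : ℂ) (contDiffAt_htC _ _ hz))
  · have e1 : dzbar (toC E) z =
        dzbar (fun ζ => htC (C'.x j) (C'.r j) (toC E (htC (C.x j) (C.r j) ζ))) z := by
      unfold dzbar
      rw [h1.fderiv_eq (𝕜 := ℝ)]
    have e2 : dz (toC E) z =
        dz (fun ζ => htC (C'.x j) (C'.r j) (toC E (htC (C.x j) (C.r j) ζ))) z := by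
      unfold dz
      rw [h1.fderiv_eq (𝕜 := ℝ)]
    rw [e1, e2, h4.1, h4.2, norm_mul, norm_mul, norm_mul, norm_mul, Complex.norm_conj, h3]
    nlinarith [mul_nonneg (norm_nonneg ((C'.r j : ℂ) ^ 2 / (toC E (((C.t j • z : ℍ) : ℂ)) - C'.x j) ^ 2))
      (norm_nonneg ((C.r j : ℂ) ^ 2 / ((z : ℂ) - C.x j) ^ 2))]

end Pool.Agent.H75.CE
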