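import Pool.Agent.H75.CE.Build

/-!
The two critical exponents.
-/

set_option autoImplicit false

open UpperHalfPlane Matrix Filter
open scoped MatrixGroups Topology

noncomputable section

namespace Pool.Agent.H75.CE

theorem x0 : C₀.x 0 = -1 := rfl
theorem x1 : C₀.x 1 = 1 := rfl
theorem x2 : C₀.x 2 = 3 := rfl
theorem rr0 : C₀.r 0 = 1 / 2 := rfl
theorem rr1 : C₀.r 1 = 1 / 2 := rfl
theorem rr2 : C₀.r 2 = 1 / 2 := rfl

theorem a01 : |(-1 : ℝ) - 1| = 2 := by norm_num [abs_of_neg]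
theorem a02 : |(-1 : ℝ) - 3| = 4 := by norm_num [abs_of_neg]
theorem a12 : |(1 : ℝ) - 3| = 2 := by norm_num [abs_of_neg]

/-- Convergence for the undeformed group at exponent `1`. -/
theorem summable_one : Summable fun γ : C₀.G =>
    Real.exp (-1 * dist UpperHalfPlane.I (act γ UpperHalfPlane.I)) := by
  have a10 : |(1 : ℝ) - -1| = 2 := by rw [abs_sub_comm, a01]
  have a20 : |(3 : ℝ) - -1| = 4 := by rw [abs_sub_comm, a02]
  have a21 : |(3 : ℝ) - 1| = 2 := by rw [abs_sub_comm, a12]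
  apply Config.summable_of_main C₀_tail (Config.I_mem_D C₀_nice) (s := 1) (a := 1)
    (by norm_num) (by norm_num) le_rfl
  · simp only [Config.F, x0, x1, x2, rr0, rr1, rr2, a01, a02, Real.rpow_one]
    norm_num
  · simp only [Config.F, x0, x1, x2, rr0, rr1, rr2, a10, a12, Real.rpow_one]
    norm_num
  · simp only [Config.F, x0, x1, x2, rr0, rr1, rr2, a20, a21, Real.rpow_one]
    norm_num

/-- The lower bound for the undeformed group. -/
theorem lower (o : ℍ) : 1 / 13 ≤ critExp C₀.G o := by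
  rw [critExp_base C₀.G o UpperHalfPlane.I]
  apply le_critExp one_pos summable_one
  intro s hs hsum
  apply Config.le_of_summable (C := C₀) (by norm_num) (Config.not_inC_I pt_half) _ hs hsum
  apply Config.dist_model x0 x1 x2
  intro j hj
  interval_cases j
  · exact rr0
  · exact rr1
  · exact rr2

/-- The parameter of the deformation. -/
def ell : ℝ := 64 * Real.log 2

theorem exp_ell : Real.exp ell = 2 ^ 64 := by
  unfold ell
  rw [show (64 : ℝ) * Real.log 2 = ((64 : ℕ) : ℝ) * Real.log 2 by norm_num,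
    ← Real.log_pow, Real.exp_log (by positivity)]

/-- The deformed configuration. -/
def C₁ : Config := Config.scale C₀_nice ell

theorem m0 : (C₀.mul ell 0 : ℝ) = 1 := Config.mul_neg' (by rw [x0]; norm_num)
theorem m1 : (C₀.mul ell 1 : ℝ) = 2 ^ 64 := by
  rw [Config.mul_pos' (by rw [x1]; norm_num), exp_ell]
theorem m2 : (C₀.mul ell 2 : ℝ) = 2 ^ 64 := by
  rw [Config.mul_pos' (by rw [x2]; norm_num), exp_ell]

theorem y0 : C₁.x 0 = -1 := by
  show (C₀.mul ell 0 : ℝ) * C₀.x 0 = _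
  rw [m0, x0]; norm_num
theorem y1 : C₁.x 1 = 2 ^ 64 := by
  show (C₀.mul ell 1 : ℝ) * C₀.x 1 = _
  rw [m1, x1]; norm_num
theorem y2 : C₁.x 2 = 2 ^ 64 * 3 := by
  show (C₀.mul ell 2 : ℝ) * C₀.x 2 = _
  rw [m2, x2]
theorem s0 : C₁.r 0 = 1 / 2 := by
  show (C₀.mul ell 0 : ℝ) * C₀.r 0 = _
  rw [m0, rr0]; norm_num
theorem s1 : C₁.r 1 = 2 ^ 64 * (1 / 2) := by
  show (C₀.mul ell 1 : ℝ) * C₀.r 1 = _
  rw [m1, rr1]
theorem s2 : C₁.r 2 = 2 ^ 64 * (1 / 2) := by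
  show (C₀.mul ell 2 : ℝ) * C₀.r 2 = _
  rw [m2, rr2]

theorem rpow_tiny {x : ℝ} (h0 : 0 ≤ x) (h : x ≤ 1 / 2 ^ 128) :
    x ^ ((1 : ℝ) / 16) ≤ 1 / 256 := by
  calc x ^ ((1 : ℝ) / 16) ≤ (1 / 2 ^ 128) ^ ((1 : ℝ) / 16) := by gcongr
    _ = ((1 / 256 : ℝ) ^ 16) ^ ((1 : ℝ) / 16) := by norm_num
    _ = 1 / 256 := by
      rw [← Real.rpow_natCast, ← Real.rpow_mul (by norm_num)]
      norm_num

theorem rpow_ninth {x : ℝ} (h0 : 0 ≤ x) (h : x ≤ 1 / 9) : x ^ ((1 : ℝ) / 16) ≤ 88 / 100 := by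
  calc x ^ ((1 : ℝ) / 16) ≤ ((88 / 100 : ℝ) ^ 16) ^ ((1 : ℝ) / 16) := by
        gcongr
        exact h.trans (by norm_num)
    _ = 88 / 100 := by
      rw [← Real.rpow_natCast, ← Real.rpow_mul (by norm_num)]
      norm_num

/-- Convergence for the deformed group at exponent `1/16`. -/
theorem summable_sixteenth : Summable fun γ : C₁.G =>
    Real.exp (-(1 / 16 : ℝ) * dist UpperHalfPlane.I (act γ UpperHalfPlane.I)) := by
  have b01 : |(-1 : ℝ) - 2 ^ 64| = 1 + 2 ^ 64 := by norm_num [abs_of_neg]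
  have b02 : |(-1 : ℝ) - 2 ^ 64 * 3| = 1 + 2 ^ 64 * 3 := by norm_num [abs_of_neg]
  have b12 : |(2 ^ 64 : ℝ) - 2 ^ 64 * 3| = 2 ^ 64 * 2 := by norm_num [abs_of_neg]
  have b21 : |(2 ^ 64 * 3 : ℝ) - 2 ^ 64| = 2 ^ 64 * 2 := by rw [abs_sub_comm, b12]
  have f01 : C₁.F 0 1 ^ ((1 : ℝ) / 16) ≤ 1 / 256 := by
    apply rpow_tiny (Config.F_nonneg _ _)
    simp only [Config.F, y0, y1, s0, s1, b01]
    norm_num
  have f02 : C₁.F 0 2 ^ ((1 : ℝ) / 16) ≤ 1 / 256 := by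
    apply rpow_tiny (Config.F_nonneg _ _)
    simp only [Config.F, y0, y2, s0, s2, b02]
    norm_num
  have f12 : C₁.F 1 2 ^ ((1 : ℝ) / 16) ≤ 88 / 100 := by
    apply rpow_ninth (Config.F_nonneg _ _)
    simp only [Config.F, y1, y2, s1, s2, b12]
    norm_num
  have f21 : C₁.F 2 1 ^ ((1 : ℝ) / 16) ≤ 88 / 100 := by
    apply rpow_ninth (Config.F_nonneg _ _)
    simp only [Config.F, y1, y2, s1, s2, b21]
    norm_num
  have f10 : C₁.F 1 0 ^ ((1 : ℝ) / 16) ≤ 1 :=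
    Real.rpow_le_one (Config.F_nonneg _ _) (Config.F_le_one (by norm_num)) (by norm_num)
  have f20 : C₁.F 2 0 ^ ((1 : ℝ) / 16) ≤ 1 :=
    Real.rpow_le_one (Config.F_nonneg _ _) (Config.F_le_one (by norm_num)) (by norm_num)
  apply Config.summable_of_main (Config.scale_tail C₀_nice C₀_tail ell)
    (Config.I_mem_D (Config.scale_nice C₀_nice ell)) (s := 1 / 16) (a := 1 / 25)
    le_rfl le_rfl (by norm_num)
  · show C₁.F 0 1 ^ ((1 : ℝ) / 16) + C₁.F 0 2 ^ ((1 : ℝ) / 16) + 1 / 127 ≤ 19 / 20 * (1 / 25)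
    linarith
  · show C₁.F 1 0 ^ ((1 : ℝ) / 16) * (1 / 25) + C₁.F 1 2 ^ ((1 : ℝ) / 16) + 1 / 127 ≤ 19 / 20
    linarith
  · show C₁.F 2 0 ^ ((1 : ℝ) / 16) * (1 / 25) + C₁.F 2 1 ^ ((1 : ℝ) / 16) + 1 / 127 ≤ 19 / 20
    linarith

theorem main : ∃ Γ₀ : Subgroup PSL(2, ℝ),
    IsFuchsian Γ₀ ∧ IsFirstKind Γ₀ ∧ ¬ Γ₀.FG ∧ (∀ γ ∈ Γ₀, γ ≠ 1 → ∀ z : ℍ, act γ z ≠ z) ∧
    ∃ w₁ ∈ Tqc Γ₀, ∃ w₂ ∈ Tqc Γ₀, ∀ o : ℍ,
      (Summable fun γ : deform w₁ Γ₀ => Real.exp (-1 * dist o (act γ o))) ∧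
      (Summable fun γ : deform w₂ Γ₀ => Real.exp (-(1 / 16 : ℝ) * dist o (act γ o))) ∧
      1 / 13 ≤ critExp (deform w₁ Γ₀) o ∧ critExp (deform w₂ Γ₀) o ≤ 1 / 16 ∧
      critExp (deform w₁ Γ₀) o ≠ critExp (deform w₂ Γ₀) o := by
  refine ⟨C₀.G, Config.G_fuchsian pt_half, Config.G_firstKind C₀_covers pt_half,
    Config.G_not_fg (Config.not_inC_I pt_half), ?_, Homeomorph.refl ℍ, refl_mem _,
    Config.wh C₀_nice ell, Config.wh_mem C₀_nice ell, fun o => ?_⟩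
  · intro γ hγ h1 z h2
    exact h1 (Config.G_free hγ h2)
  · rw [deform_refl, Config.deform_wh]
    have h1 : Summable fun γ : C₁.G => Real.exp (-(1 / 16 : ℝ) * dist o (act γ o)) :=
      summable_of_base (by norm_num) summable_sixteenth
    have h2 : critExp C₁.G o ≤ 1 / 16 := critExp_le (by norm_num) h1
    have h3 := lower o
    refine ⟨summable_of_base one_pos summable_one, h1, h3, h2, ?_⟩
    intro h
    have h4 : critExp C₀.G o = critExp C₁.G o := h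
    rw [h4] at h3
    norm_num at h3 h2
    linarith

end Pool.Agent.H75.CE
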