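import Pool.Agent.H75.CE.Poincare

/-!
Lower bound for the critical exponent from three half-turns.
-/

set_option autoImplicit false

open UpperHalfPlane Matrix Filter
open scoped MatrixGroups Topology

noncomputable section

namespace Pool.Agent.H75.CE

theorem not_summable_list : ¬ Summable fun l : List Bool => ((1 : ℝ) / 2) ^ l.length := by
  intro h
  rw [← List.equivSigmaTuple.symm.summable_iff] at h
  have h2 := h.sigma
  have h3 : (fun n : ℕ => ∑' u : Fin n → Bool,
      ((fun l : List Bool => ((1 : ℝ) / 2) ^ l.length) ∘ List.equivSigmaTuple.symm) ⟨n, u⟩) =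
      fun _ => (1 : ℝ) := by
    ext n
    rw [tsum_fintype]
    have : ∀ u : Fin n → Bool,
        ((fun l : List Bool => ((1 : ℝ) / 2) ^ l.length) ∘ List.equivSigmaTuple.symm) ⟨n, u⟩ =
          ((1 : ℝ) / 2) ^ n := by
      intro u
      show ((1 : ℝ) / 2) ^ (List.ofFn u).length = _
      rw [List.length_ofFn]
    simp only [this, Finset.sum_const, Finset.card_univ, Fintype.card_fun, Fintype.card_bool,
      Fintype.card_fin]
    rw [nsmul_eq_mul]
    push_cast
    rw [← mul_pow]
    norm_num
  rw [h3] at h2
  have := h2.tendsto_atTop_zero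
  rw [tendsto_const_nhds_iff] at this
  norm_num at this

/-- The words used for the lower bound. -/
def word : List Bool → List ℕ
  | [] => []
  | b :: l => 0 :: (if b then 1 else 2) :: word l

theorem word_red (l : List Bool) : Config.Red (word l) := by
  induction l with
  | nil => exact List.IsChain.nil
  | cons b l ih =>
    rw [word]
    apply List.IsChain.cons_cons
    · cases b <;> simp
    · cases l with
      | nil => exact List.IsChain.singleton _
      | cons c l =>
        rw [word] at ih ⊢
        apply List.IsChain.cons_cons _ ih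
        cases b <;> simp

theorem word_even (l : List Bool) : Even (word l).length := by
  induction l with
  | nil => simp [word]
  | cons b l ih =>
    rw [word]
    simp only [List.length_cons, Nat.even_add_one, not_not]
    exact ih

theorem word_injective : Function.Injective word := by
  intro l
  induction l with
  | nil =>
    intro m h
    cases m with
    | nil => rfl
    | cons b m => simp [word] at h
  | cons b l ih =>
    intro m h
    cases m with
    | nil => simp [word] at h
    | cons c m =>
      simp only [word, List.cons.injEq, true_and] at h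
      have hbc : b = c := by
        have := h.1
        cases b <;> cases c <;> simp_all
      rw [hbc, ih h.2]

namespace Config

variable {C : Config}

theorem dist_word_le {M : ℝ} (h : ∀ b : Bool, dist UpperHalfPlane.I
      (act (C.P [0, if b then 1 else 2]) UpperHalfPlane.I) ≤ M) (l : List Bool) :
    dist UpperHalfPlane.I (act (C.P (word l)) UpperHalfPlane.I) ≤ l.length * M := by
  induction l with
  | nil => simp [word]
  | cons b l ih =>
    have h1 : C.P (word (b :: l)) = C.P [0, if b then 1 else 2] * C.P (word l) := by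
      rw [word, P_cons, P_cons]
      simp [mul_assoc]
    rw [h1, act_mul]
    calc dist UpperHalfPlane.I (act (C.P [0, if b then 1 else 2]) (act (C.P (word l))
            UpperHalfPlane.I))
        ≤ dist UpperHalfPlane.I (act (C.P [0, if b then 1 else 2]) UpperHalfPlane.I) +
          dist (act (C.P [0, if b then 1 else 2]) UpperHalfPlane.I)
            (act (C.P [0, if b then 1 else 2]) (act (C.P (word l)) UpperHalfPlane.I)) :=
          dist_triangle _ _ _
      _ = dist UpperHalfPlane.I (act (C.P [0, if b then 1 else 2]) UpperHalfPlane.I) +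
          dist UpperHalfPlane.I (act (C.P (word l)) UpperHalfPlane.I) := by rw [dist_act]
      _ ≤ M + l.length * M := add_le_add (h b) ih
      _ = _ := by push_cast [List.length_cons]; ring

/-- Lower bound for the exponents of convergence. -/
theorem le_of_summable {N : ℝ} (hN : 0 < N) (hI : ∀ l, ¬ C.inC l UpperHalfPlane.I)
    (h : ∀ b : Bool, dist UpperHalfPlane.I
      (act (C.P [0, if b then 1 else 2]) UpperHalfPlane.I) ≤ N * Real.log 2) {s : ℝ} (hs : 0 < s)
    (hsum : Summable fun γ : C.G =>
      Real.exp (-s * dist UpperHalfPlane.I (act γ UpperHalfPlane.I))) :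
    1 / N ≤ s := by
  by_contra hcon
  push Not at hcon
  apply not_summable_list
  let ι : List Bool → C.G := fun l => ⟨C.P (word l), even_mem_G (word_even l)⟩
  have hι : Function.Injective ι := by
    intro l m hlm
    apply word_injective
    apply eq_of_act_P_eq (C := C) (word_red l) (word_red m) hI
    rw [show C.P (word l) = C.P (word m) from congrArg Subtype.val hlm]
  have h2 := hsum.comp_injective hι
  refine Summable.of_nonneg_of_le (fun _ => by positivity) (fun l => ?_) h2
  have h3 := dist_word_le h l
  have h4 : ((1 : ℝ) / 2) ^ l.length = Real.exp (-(l.length * Real.log 2)) := by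
    rw [Real.exp_neg, mul_comm, Real.exp_mul, Real.exp_log two_pos, Real.rpow_natCast]
    simp
  rw [h4]
  apply Real.exp_le_exp.mpr
  have h5 : 0 < Real.log 2 := Real.log_pos one_lt_two
  have h6 : s * N < 1 := by rwa [lt_div_iff₀ hN] at hcon
  have h7 : s * dist UpperHalfPlane.I (act (C.P (word l)) UpperHalfPlane.I) ≤
      s * (l.length * (N * Real.log 2)) := by gcongr
  have h8 : s * (l.length * (N * Real.log 2)) ≤ l.length * Real.log 2 := by
    have : 0 ≤ (l.length : ℝ) * Real.log 2 := by positivity
    nlinarith
  show -(l.length * Real.log 2) ≤ -s * dist UpperHalfPlane.I (act (C.P (word l)) UpperHalfPlane.I)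
  linarith

theorem exp_dist_t (j : ℕ) {c : ℝ}
    (hc : ((C.x j + C.r j ^ 2 * C.x j / (C.x j ^ 2 + 1)) ^ 2 + 1 +
      (C.r j ^ 2 / (C.x j ^ 2 + 1)) ^ 2) / (C.r j ^ 2 / (C.x j ^ 2 + 1)) ≤ c) :
    Real.exp (dist UpperHalfPlane.I (C.t j • UpperHalfPlane.I)) ≤ c := by
  have h1 : Real.exp (dist UpperHalfPlane.I (C.t j • UpperHalfPlane.I)) ≤
      2 * Real.cosh (dist UpperHalfPlane.I (C.t j • UpperHalfPlane.I)) := by
    rw [Real.cosh_eq]
    have := Real.exp_pos (-dist UpperHalfPlane.I (C.t j • UpperHalfPlane.I))
    linarith
  refine h1.trans (le_trans (le_of_eq ?_) hc)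
  have hN : Nsq (C.x j) UpperHalfPlane.I = C.x j ^ 2 + 1 := by
    rw [Nsq_eq]; simp
  have him : (C.t j • UpperHalfPlane.I).im = C.r j ^ 2 / (C.x j ^ 2 + 1) := by
    rw [t_im, hN]; simp
  have hre : (C.t j • UpperHalfPlane.I).re = C.x j + C.r j ^ 2 * C.x j / (C.x j ^ 2 + 1) := by
    have := ht_re (C.x j) (C.r j) (C.r_pos j) UpperHalfPlane.I
    rw [hN] at this
    show (ht (C.x j) (C.r j) (C.r_pos j) • UpperHalfPlane.I).re = _
    rw [this]
    simp
    ring
  rw [cosh_dist', him, hre]
  have hr := C.r_pos j
  simp only [I_re, I_im]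
  field_simp
  ring

/-- The distances in the model configuration. -/
theorem dist_model (hx0 : C.x 0 = -1) (hx1 : C.x 1 = 1) (hx2 : C.x 2 = 3)
    (hr : ∀ j < 3, C.r j = 1 / 2) (b : Bool) :
    dist UpperHalfPlane.I (act (C.P [0, if b then 1 else 2]) UpperHalfPlane.I) ≤
      13 * Real.log 2 := by
  have h0 : Real.exp (dist UpperHalfPlane.I (C.t 0 • UpperHalfPlane.I)) ≤ 73 / 4 := by
    apply exp_dist_t
    rw [hx0, hr 0 (by norm_num)]
    norm_num
  have h1 : Real.exp (dist UpperHalfPlane.I (C.t (if b then 1 else 2) • UpperHalfPlane.I)) ≤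
      1673 / 4 := by
    apply exp_dist_t
    cases b
    · simp only [Bool.false_eq_true, if_false]
      rw [hx2, hr 2 (by norm_num)]
      norm_num
    · simp only [if_true]
      rw [hx1, hr 1 (by norm_num)]
      norm_num
  have h2 : dist UpperHalfPlane.I (act (C.P [0, if b then 1 else 2]) UpperHalfPlane.I) ≤
      dist UpperHalfPlane.I (C.t 0 • UpperHalfPlane.I) +
      dist UpperHalfPlane.I (C.t (if b then 1 else 2) • UpperHalfPlane.I) := by
    have e : act (C.P [0, if b then 1 else 2]) UpperHalfPlane.I =
        C.t 0 • C.t (if b then 1 else 2) • UpperHalfPlane.I := by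
      rw [P_cons, P_cons, P_nil, mul_one, act_mul, act_τ, act_τ]
    rw [e]
    refine (dist_triangle _ (C.t 0 • UpperHalfPlane.I) _).trans ?_
    rw [dist_smul]
  have h3 : Real.exp (dist UpperHalfPlane.I
      (act (C.P [0, if b then 1 else 2]) UpperHalfPlane.I)) ≤ 2 ^ 13 := by
    calc _ ≤ Real.exp (dist UpperHalfPlane.I (C.t 0 • UpperHalfPlane.I) +
          dist UpperHalfPlane.I (C.t (if b then 1 else 2) • UpperHalfPlane.I)) :=
          Real.exp_le_exp.mpr h2
      _ = Real.exp (dist UpperHalfPlane.I (C.t 0 • UpperHalfPlane.I)) *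
          Real.exp (dist UpperHalfPlane.I (C.t (if b then 1 else 2) • UpperHalfPlane.I)) :=
          Real.exp_add _ _
      _ ≤ 73 / 4 * (1673 / 4) := by
          apply mul_le_mul h0 h1 (Real.exp_pos _).le (by norm_num)
      _ ≤ 2 ^ 13 := by norm_num
  have h4 := (Real.le_log_iff_exp_le (by norm_num)).mpr h3
  rw [Real.log_pow] at h4
  exact_mod_cast h4

end Config

end Pool.Agent.H75.CE
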