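import Pool.Agent.H75.CE.Words

/-!
Estimates for Poincare series.
-/

set_option autoImplicit false

open UpperHalfPlane Matrix Filter
open scoped MatrixGroups Topology ENNReal

noncomputable section

namespace Pool.Agent.H75.CE

/-! ### General facts on the critical exponent -/

theorem summable_of_base {Γ : Subgroup PSL(2, ℝ)} {s : ℝ} (hs : 0 < s) {o o' : ℍ}
    (h : Summable fun γ : Γ => Real.exp (-s * dist o (act γ o))) :
    Summable fun γ : Γ => Real.exp (-s * dist o' (act γ o')) := by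
  refine Summable.of_nonneg_of_le (fun _ => (Real.exp_pos _).le) (fun γ => ?_)
    (h.mul_left (Real.exp (2 * s * dist o o')))
  rw [← Real.exp_add]
  apply Real.exp_le_exp.mpr
  have h1 : dist o (act γ o) ≤ dist o o' + dist o' (act γ o') + dist (act γ o') (act γ o) :=
    dist_triangle4 _ _ _ _
  rw [dist_act, dist_comm o' o] at h1
  nlinarith

theorem critExp_base (Γ : Subgroup PSL(2, ℝ)) (o o' : ℍ) : critExp Γ o = critExp Γ o' := by
  unfold critExp
  congr 1
  ext s
  exact ⟨fun h => ⟨h.1, summable_of_base h.1 h.2⟩, fun h => ⟨h.1, summable_of_base h.1 h.2⟩⟩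

theorem critExp_le {Γ : Subgroup PSL(2, ℝ)} {s : ℝ} (hs : 0 < s) {o : ℍ}
    (h : Summable fun γ : Γ => Real.exp (-s * dist o (act γ o))) : critExp Γ o ≤ s :=
  csInf_le ⟨0, fun _ ht => ht.1.le⟩ ⟨hs, h⟩

theorem le_critExp {Γ : Subgroup PSL(2, ℝ)} {s₀ s₁ : ℝ} (hs : 0 < s₁) {o : ℍ}
    (h1 : Summable fun γ : Γ => Real.exp (-s₁ * dist o (act γ o)))
    (h : ∀ s, 0 < s → (Summable fun γ : Γ => Real.exp (-s * dist o (act γ o))) → s₀ ≤ s) :
    s₀ ≤ critExp Γ o :=
  le_csInf ⟨s₁, hs, h1⟩ fun s hs => h s hs.1 hs.2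

theorem exp_le_im_rpow {s : ℝ} (hs : 0 < s) (z : ℍ) :
    Real.exp (-s * dist UpperHalfPlane.I z) ≤ z.im ^ s := by
  rw [Real.rpow_def_of_pos z.im_pos]
  apply Real.exp_le_exp.mpr
  have h1 := dist_log_im_le UpperHalfPlane.I z
  simp only [I_im, Real.log_one, dist_zero_left, Real.norm_eq_abs] at h1
  have h2 := neg_le_of_abs_le h1
  nlinarith

namespace Config

variable (C : Config)

/-- The transition factor. -/
def F (j k : ℕ) : ℝ := C.r j ^ 2 / (|C.x j - C.x k| - C.r k) ^ 2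

variable {C}

theorem gap_pos {j k : ℕ} (h : j ≠ k) : C.r j < |C.x j - C.x k| - C.r k := by
  have := C.sep j k h
  linarith

theorem F_nonneg (j k : ℕ) : 0 ≤ C.F j k := by unfold F; positivity

theorem F_le_one {j k : ℕ} (h : j ≠ k) : C.F j k ≤ 1 := by
  unfold F
  have h1 := gap_pos (C := C) h
  have h2 := C.r_pos j
  have h3 : 0 < |C.x j - C.x k| - C.r k := by linarith
  rw [div_le_one (by positivity)]
  gcongr

theorem im_le_F {j k : ℕ} {L : List ℕ} (h : Red (j :: k :: L)) {z : ℍ} (hz : z ∈ C.D) :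
    (act (C.P (j :: k :: L)) z).im ≤ C.F j k * (act (C.P (k :: L)) z).im := by
  have hjk : j ≠ k := by
    cases h with
    | cons_cons hne _ => exact hne
  rw [P_cons, act_mul, act_τ, t_im]
  set u := act (C.P (k :: L)) z with hu
  have h1 : C.inC k u := inC_P h.tail hz
  have h2 := norm_sub_ge (j := j) h1
  have h3 := gap_pos (C := C) hjk
  have h4 := C.r_pos j
  have h5 : (|C.x j - C.x k| - C.r k) ^ 2 ≤ Nsq (C.x j) u := by
    rw [Nsq_eq_norm]; gcongr; linarith
  have h6 := u.im_pos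
  unfold F
  rw [div_mul_eq_mul_div]
  gcongr
  have : 0 < |C.x j - C.x k| - C.r k := by linarith
  positivity

theorem im_single (j : ℕ) :
    (act (C.P [j]) UpperHalfPlane.I).im = C.r j ^ 2 / (1 + C.x j ^ 2) := by
  rw [P_cons, P_nil, mul_one, act_τ, t_im, Nsq_eq]
  simp
  ring

variable (C)

/-- Weights of words. -/
def W (s : ℝ) : List ℕ → ℝ≥0∞
  | [] => 1
  | [j] => ENNReal.ofReal ((C.r j ^ 2 / (1 + C.x j ^ 2)) ^ s)
  | j :: k :: L => (if j = k then 0 else ENNReal.ofReal (C.F j k ^ s)) * W s (k :: L)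

variable {C}

theorem im_rpow_le_W {s : ℝ} (hs : 0 < s) (hI : UpperHalfPlane.I ∈ C.D) {L : List ℕ}
    (hL : Red L) : ENNReal.ofReal ((act (C.P L) UpperHalfPlane.I).im ^ s) ≤ C.W s L := by
  induction L with
  | nil => simp [W]
  | cons j L ih =>
    cases L with
    | nil => rw [im_single]; simp [W]
    | cons k L =>
      have hjk : j ≠ k := by
        cases hL with
        | cons_cons hne _ => exact hne
      have h1 := im_le_F hL hI
      rw [W, if_neg hjk]
      have h2 : (act (C.P (j :: k :: L)) UpperHalfPlane.I).im ^ s ≤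
          C.F j k ^ s * (act (C.P (k :: L)) UpperHalfPlane.I).im ^ s := by
        rw [← Real.mul_rpow (F_nonneg _ _) (UpperHalfPlane.im_pos _).le]
        exact Real.rpow_le_rpow (UpperHalfPlane.im_pos _).le h1 hs.le
      calc ENNReal.ofReal ((act (C.P (j :: k :: L)) UpperHalfPlane.I).im ^ s)
          ≤ ENNReal.ofReal (C.F j k ^ s * (act (C.P (k :: L)) UpperHalfPlane.I).im ^ s) :=
            ENNReal.ofReal_le_ofReal h2
        _ = ENNReal.ofReal (C.F j k ^ s) *
            ENNReal.ofReal ((act (C.P (k :: L)) UpperHalfPlane.I).im ^ s) :=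
            ENNReal.ofReal_mul (Real.rpow_nonneg (F_nonneg _ _) _)
        _ ≤ _ := by gcongr; exact ih hL.tail

/-- The sum of the weights over words of given length and first letter. -/
theorem tsum_W_le {θ K : ℝ≥0∞} {v : ℕ → ℝ≥0∞} {s : ℝ}
    (h0 : ∀ j, ENNReal.ofReal ((C.r j ^ 2 / (1 + C.x j ^ 2)) ^ s) ≤ K * v j)
    (h1 : ∀ j, ∑' k, (if j = k then 0 else ENNReal.ofReal (C.F j k ^ s)) * v k ≤ θ * v j)
    (n : ℕ) (j : ℕ) :
    ∑' u : Fin n → ℕ, C.W s (j :: List.ofFn u) ≤ θ ^ n * K * v j := by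
  induction n generalizing j with
  | zero =>
    rw [tsum_fintype]
    simpa [W] using h0 j
  | succ n ih =>
    rw [← (Fin.consEquiv fun _ => ℕ).tsum_eq, ENNReal.tsum_prod']
    calc ∑' k, ∑' u : Fin n → ℕ, C.W s (j :: List.ofFn ((Fin.consEquiv fun _ => ℕ) (k, u)))
        = ∑' k, ∑' u : Fin n → ℕ, (if j = k then 0 else ENNReal.ofReal (C.F j k ^ s)) *
            C.W s (k :: List.ofFn u) := by
          congr 1; ext k; congr 1; ext u
          rw [List.ofFn_succ]
          simp [Fin.consEquiv, W]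
      _ = ∑' k, (if j = k then 0 else ENNReal.ofReal (C.F j k ^ s)) *
            ∑' u : Fin n → ℕ, C.W s (k :: List.ofFn u) := by
          congr 1; ext k; rw [ENNReal.tsum_mul_left]
      _ ≤ ∑' k, (if j = k then 0 else ENNReal.ofReal (C.F j k ^ s)) * (θ ^ n * K * v k) := by
          gcongr with k; exact ih k
      _ = θ ^ n * K * ∑' k, (if j = k then 0 else ENNReal.ofReal (C.F j k ^ s)) * v k := by
          rw [← ENNReal.tsum_mul_left]
          congr 1; ext k; ring
      _ ≤ θ ^ n * K * (θ * v j) := by gcongr; exact h1 j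
      _ = _ := by ring

theorem tsum_W_ne_top {θ K : ℝ≥0∞} {v : ℕ → ℝ≥0∞} {s : ℝ}
    (h0 : ∀ j, ENNReal.ofReal ((C.r j ^ 2 / (1 + C.x j ^ 2)) ^ s) ≤ K * v j)
    (h1 : ∀ j, ∑' k, (if j = k then 0 else ENNReal.ofReal (C.F j k ^ s)) * v k ≤ θ * v j)
    (hθ : θ < 1) (hK : K ≠ ∞) (hv : ∑' j, v j ≠ ∞) :
    ∑' L : List ℕ, C.W s L ≠ ∞ := by
  rw [← List.equivSigmaTuple.symm.tsum_eq, ENNReal.tsum_sigma', tsum_eq_zero_add' ENNReal.summable]
  apply ne_of_lt
  apply ENNReal.add_lt_top.mpr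
  constructor
  · rw [tsum_fintype]
    simp [List.equivSigmaTuple, W]
  · calc ∑' (n : ℕ) (u : Fin (n + 1) → ℕ), C.W s (List.equivSigmaTuple.symm ⟨n + 1, u⟩)
        = ∑' (n : ℕ) (j : ℕ) (u : Fin n → ℕ), C.W s (j :: List.ofFn u) := by
          congr 1; ext n
          rw [← (Fin.consEquiv fun _ => ℕ).tsum_eq, ENNReal.tsum_prod']
          congr 1; ext j; congr 1; ext u
          show C.W s (List.ofFn _) = _
          rw [List.ofFn_succ]
          simp [Fin.consEquiv]
      _ ≤ ∑' (n : ℕ) (j : ℕ), θ ^ n * K * v j := by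
          gcongr with n j; exact tsum_W_le h0 h1 n j
      _ = ∑' (n : ℕ), θ ^ n * (K * ∑' j, v j) := by
          congr 1; ext n
          rw [ENNReal.tsum_mul_left]; ring
      _ = (∑' (n : ℕ), θ ^ n) * (K * ∑' j, v j) := by rw [ENNReal.tsum_mul_right]
      _ < ∞ := by
          rw [ENNReal.tsum_geometric]
          apply ENNReal.mul_lt_top
          · rw [ENNReal.inv_lt_top]
            exact tsub_pos_of_lt hθ
          · exact ENNReal.mul_lt_top hK.lt_top hv.lt_top

theorem summable_of_weights {θ K : ℝ≥0∞} {v : ℕ → ℝ≥0∞} {s : ℝ} (hs : 0 < s)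
    (hI : UpperHalfPlane.I ∈ C.D)
    (h0 : ∀ j, ENNReal.ofReal ((C.r j ^ 2 / (1 + C.x j ^ 2)) ^ s) ≤ K * v j)
    (h1 : ∀ j, ∑' k, (if j = k then 0 else ENNReal.ofReal (C.F j k ^ s)) * v k ≤ θ * v j)
    (hθ : θ < 1) (hK : K ≠ ∞) (hv : ∑' j, v j ≠ ∞) :
    Summable fun γ : C.G => Real.exp (-s * dist UpperHalfPlane.I (act γ UpperHalfPlane.I)) := by
  have hch : ∀ γ : C.G, ∃ L, Red L ∧ Even L.length ∧ C.P L = γ := fun γ =>
    mem_G_iff_red.mp γ.2
  choose Lf h2 _ h4 using hch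
  have hinj : Function.Injective Lf := by
    intro a b hab
    apply Subtype.ext
    rw [← h4 a, ← h4 b, hab]
  have h5 : ∑' γ : C.G, ENNReal.ofReal
      (Real.exp (-s * dist UpperHalfPlane.I (act γ UpperHalfPlane.I))) ≠ ∞ := by
    apply ne_of_lt
    calc (∑' γ : C.G, ENNReal.ofReal
            (Real.exp (-s * dist UpperHalfPlane.I (act γ UpperHalfPlane.I))))
        ≤ ∑' γ : C.G, C.W s (Lf γ) := by
          gcongr with γ
          rw [← h4 γ]
          refine le_trans ?_ (im_rpow_le_W hs hI (h2 γ))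
          exact ENNReal.ofReal_le_ofReal (exp_le_im_rpow hs _)
      _ ≤ ∑' L : List ℕ, C.W s L := ENNReal.tsum_comp_le_tsum_of_injective hinj _
      _ < ∞ := (tsum_W_ne_top h0 h1 hθ hK hv).lt_top
  have h6 := ENNReal.summable_toReal h5
  refine h6.congr fun γ => ?_
  exact ENNReal.toReal_ofReal (Real.exp_pos _).le

end Config

end Pool.Agent.H75.CE
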