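import Pool.Agent.H75.CE.Lower

/-!
Row sums of the transition matrix for rapidly decreasing configurations.
-/

set_option autoImplicit false

open UpperHalfPlane Matrix Filter
open scoped MatrixGroups Topology ENNReal

noncomputable section

namespace Pool.Agent.H75.CE

/-- The geometric weights. -/
def q (k : ℕ) : ℝ := (1 / 128) ^ (k - 2)

theorem q_pos (k : ℕ) : 0 < q k := by unfold q; positivity

theorem q_le_one (k : ℕ) : q k ≤ 1 := by
  unfold q; exact pow_le_one₀ (by norm_num) (by norm_num)

theorem q_le {k : ℕ} (hk : 3 ≤ k) : q k ≤ 1 / 128 := by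
  unfold q
  calc ((1 : ℝ) / 128) ^ (k - 2) ≤ (1 / 128) ^ 1 :=
        pow_le_pow_of_le_one (by norm_num) (by norm_num) (by omega)
    _ = 1 / 128 := by norm_num

theorem hasSum_q {m : ℕ} (hm : 2 ≤ m) : HasSum (fun n => q (n + (m + 1))) (q m / 127) := by
  have h := (hasSum_geometric_of_lt_one (show (0 : ℝ) ≤ 1 / 128 by norm_num)
    (show (1 / 128 : ℝ) < 1 by norm_num)).mul_left (q m * (1 / 128))
  have e1 : q m * (1 / 128) * (1 - 1 / 128 : ℝ)⁻¹ = q m / 127 := by
    norm_num; ring
  rw [e1] at h
  refine h.congr_fun ?_ |> fun h => h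
  intro n
  unfold q
  have : n + (m + 1) - 2 = (m - 2) + 1 + n := by omega
  rw [this, pow_add, pow_add]
  ring

theorem hasSum_ind {k : ℕ} (hk : 2 ≤ k) :
    HasSum (fun l => if k < l then q l else 0) (q k / 127) := by
  rw [← hasSum_nat_add_iff' (k + 1)]
  have h0 : ∑ i ∈ Finset.range (k + 1), (if k < i then q i else 0) = 0 := by
    apply Finset.sum_eq_zero
    intro i hi
    rw [Finset.mem_range] at hi
    rw [if_neg (by omega)]
  rw [h0, sub_zero]
  have h1 := hasSum_q hk
  refine h1.congr_fun ?_ |> fun h => h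
  intro n
  rw [if_pos (by omega)]

namespace Config

/-- Rapidly decreasing configurations. -/
structure Tail (C : Config) : Prop where
  T1 : ∀ k, 3 ≤ k → ∀ j < k, C.r k ≤ q k ^ 16 * (|C.x j - C.x k| - C.r j)
  T2 : ∀ k, 3 ≤ k → C.r k ≤ q k ^ 16 * |C.x k|
  T3 : ∀ k < 3, C.r k ≤ |C.x k|

/-- The weights. -/
def v (a : ℝ) (k : ℕ) : ℝ := if k = 0 then a else q k

variable {C : Config}

theorem rpow_est {x y s : ℝ} (hy0 : 0 < y) (hy1 : y ≤ 1) (hx0 : 0 ≤ x) (hx : x ≤ y ^ 32)
    (hs : 1 / 16 ≤ s) : x ^ s ≤ y ^ 2 := by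
  have hs0 : 0 < s := by linarith
  calc x ^ s ≤ (y ^ 32) ^ s := Real.rpow_le_rpow hx0 hx hs0.le
    _ = y ^ (32 * s) := by
      rw [← Real.rpow_natCast, ← Real.rpow_mul hy0.le]; norm_num
    _ ≤ y ^ (2 : ℝ) := Real.rpow_le_rpow_of_exponent_ge hy0 hy1 (by linarith)
    _ = y ^ 2 := by norm_num

theorem F_tail (hT : C.Tail) {k l : ℕ} (hk : 3 ≤ k) (hl : l < k) {s : ℝ} (hs : 1 / 16 ≤ s) :
    C.F k l ^ s ≤ q k ^ 2 := by
  apply rpow_est (q_pos k) (q_le_one k) (F_nonneg _ _) _ hs
  unfold F
  have h1 := hT.T1 k hk l hl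
  have h2 : 0 < |C.x k - C.x l| - C.r l := by
    have := gap_pos (C := C) (show k ≠ l by omega)
    have := C.r_pos k
    linarith
  rw [abs_sub_comm] at h1
  rw [div_le_iff₀ (by positivity)]
  have h3 := C.r_pos k
  calc C.r k ^ 2 ≤ (q k ^ 16 * (|C.x k - C.x l| - C.r l)) ^ 2 := by gcongr
    _ = _ := by ring

theorem hasSum_v (a : ℝ) : HasSum (v a) (a + 1 + 1 + 1 / 127) := by
  rw [← hasSum_nat_add_iff' 3]
  have h := hasSum_q (le_refl 2)
  have e0 : ∑ i ∈ Finset.range 3, v a i = a + 1 + 1 := by
    simp [Finset.sum_range_succ, v, q]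
  have e1 : q 2 = 1 := by simp [q]
  rw [e0, show a + 1 + 1 + 1 / 127 - (a + 1 + 1) = q 2 / 127 by rw [e1]; ring]
  refine h.congr_fun ?_ |> fun h => h
  intro n
  simp [v]

/-- The main criterion. -/
theorem summable_of_main (hT : C.Tail) (hI : UpperHalfPlane.I ∈ C.D) {s a : ℝ}
    (hs : 1 / 16 ≤ s) (ha : 1 / 25 ≤ a) (ha1 : a ≤ 1)
    (r0 : C.F 0 1 ^ s + C.F 0 2 ^ s + 1 / 127 ≤ 19 / 20 * a)
    (r1 : C.F 1 0 ^ s * a + C.F 1 2 ^ s + 1 / 127 ≤ 19 / 20)
    (r2 : C.F 2 0 ^ s * a + C.F 2 1 ^ s + 1 / 127 ≤ 19 / 20) :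
    Summable fun γ : C.G => Real.exp (-s * dist UpperHalfPlane.I (act γ UpperHalfPlane.I)) := by
  have hs0 : 0 < s := by linarith
  have hv0 : ∀ k, 0 < v a k := by
    intro k; unfold v; split_ifs
    · linarith
    · exact q_pos k
  have hF0 : ∀ j k, 0 ≤ C.F j k ^ s := fun j k => Real.rpow_nonneg (F_nonneg _ _) _
  have hF1 : ∀ j k, j ≠ k → C.F j k ^ s ≤ 1 := fun j k h =>
    Real.rpow_le_one (F_nonneg _ _) (F_le_one h) hs0.le
  have q1 : q 1 = 1 := by simp [q]
  have q2 : q 2 = 1 := by simp [q]
  -- the real form of the row estimates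
  have rows : ∀ j, ∃ S, S ≤ 19 / 20 * v a j ∧ ∃ b : ℕ → ℝ, HasSum b S ∧
      ∀ k, (if j = k then 0 else C.F j k ^ s) * v a k ≤ b k := by
    intro j
    by_cases hj : 3 ≤ j
    · refine ⟨q j ^ 2 * (a + 1 + 1 + 1 / 127) + q j / 127, ?_,
        fun l => q j ^ 2 * v a l + if j < l then q l else 0,
        ((hasSum_v a).mul_left _).add (hasSum_ind (by omega)), ?_⟩
      · have e : v a j = q j := by unfold v; rw [if_neg (by omega)]
        rw [e]
        have h1 := q_le hj
        have h2 := q_pos j
        have h3 : q j ^ 2 * (a + 1 + 1 + 1 / 127) ≤ q j * (1 / 128 * (1 + 1 + 1 + 1 / 127)) := by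
          rw [sq, mul_assoc]
          gcongr
        nlinarith
      · intro k
        beta_reduce
        rcases lt_trichotomy j k with h | h | h
        · rw [if_neg h.ne, if_pos h]
          have e : v a k = q k := by unfold v; rw [if_neg (by omega)]
          have h1 := hF1 j k h.ne
          have h2 := hv0 k
          have h3 := q_pos j
          rw [← e]
          have : 0 ≤ q j ^ 2 * v a k := by positivity
          nlinarith
        · subst h
          simp
          have := hv0 j
          have := q_pos j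
          positivity
        · rw [if_neg h.ne', if_neg (by omega), add_zero]
          have := F_tail hT hj h hs
          have := hv0 k
          gcongr
    · have hj3 : j < 3 := by omega
      refine ⟨∑ i ∈ Finset.range 3, (if j = i then 0 else C.F j i ^ s) * v a i + 1 / 127, ?_,
        fun k => if k < 3 then (if j = k then 0 else C.F j k ^ s) * v a k else q k, ?_, ?_⟩
      · simp only [Finset.sum_range_succ, Finset.sum_range_zero, zero_add]
        have v0 : v a 0 = a := by simp [v]
        have v1 : v a 1 = 1 := by simp [v, q1]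
        have v2 : v a 2 = 1 := by simp [v, q2]
        interval_cases j
        · simp [v0, v1, v2] at r0 ⊢
          linarith
        · simp [v0, v1, v2] at r1 ⊢
          linarith
        · simp [v0, v1, v2] at r2 ⊢
          linarith
      · rw [← hasSum_nat_add_iff' 3]
        have h := hasSum_q (le_refl 2)
        rw [q2] at h
        have e : ∑ i ∈ Finset.range 3, (fun k => if k < 3 then
            (if j = k then 0 else C.F j k ^ s) * v a k else q k) i =
            ∑ i ∈ Finset.range 3, (if j = i then 0 else C.F j i ^ s) * v a i := by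
          apply Finset.sum_congr rfl
          intro i hi
          rw [Finset.mem_range] at hi
          simp only
          rw [if_pos hi]
        rw [e, add_sub_cancel_left]
        refine h.congr_fun ?_ |> fun h => h
        intro n
        rw [if_neg (by omega)]
      · intro k
        by_cases hk : k < 3
        · simp only [if_pos hk]; exact le_rfl
        · simp only [if_neg hk]
          rw [if_neg (by omega)]
          have e : v a k = q k := by unfold v; rw [if_neg (by omega)]
          have h1 := hF1 j k (by omega)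
          have h2 := hv0 k
          rw [← e]
          nlinarith
  apply summable_of_weights (θ := ENNReal.ofReal (19 / 20)) (K := ENNReal.ofReal 25)
    (v := fun k => ENNReal.ofReal (v a k)) hs0 hI
  · intro j
    rw [← ENNReal.ofReal_mul (by norm_num)]
    apply ENNReal.ofReal_le_ofReal
    by_cases hj : 3 ≤ j
    · have e : v a j = q j := by unfold v; rw [if_neg (by omega)]
      rw [e]
      have h1 := hT.T2 j hj
      have h2 := C.r_pos j
      have h3 : (C.r j ^ 2 / (1 + C.x j ^ 2)) ^ s ≤ q j ^ 2 := by
        apply rpow_est (q_pos j) (q_le_one j) (by positivity) _ hs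
        rw [div_le_iff₀ (by positivity)]
        have h4 := q_pos j
        calc C.r j ^ 2 ≤ (q j ^ 16 * |C.x j|) ^ 2 := by gcongr
          _ = q j ^ 32 * C.x j ^ 2 := by rw [mul_pow, sq_abs]; ring
          _ ≤ _ := by gcongr; linarith
      have h4 := q_pos j
      have h5 := q_le_one j
      nlinarith
    · have h1 := hT.T3 j (by omega)
      have h2 := C.r_pos j
      have h3 : (C.r j ^ 2 / (1 + C.x j ^ 2)) ^ s ≤ 1 := by
        apply Real.rpow_le_one (by positivity) _ hs0.le
        rw [div_le_one (by positivity)]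
        have : C.r j ^ 2 ≤ C.x j ^ 2 := by rw [← sq_abs (C.x j)]; gcongr
        linarith
      have h4 : 1 / 25 ≤ v a j := by
        unfold v
        split_ifs
        · exact ha
        · have : j = 1 ∨ j = 2 := by omega
          rcases this with rfl | rfl
          · rw [q1]; norm_num
          · rw [q2]; norm_num
      linarith
  · intro j
    obtain ⟨S, hS, b, hb, hbk⟩ := rows j
    have hb0 : ∀ k, 0 ≤ b k := by
      intro k
      refine le_trans ?_ (hbk k)
      have := hv0 k
      split_ifs
      · simp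
      · have := hF0 j k; positivity
    calc ∑' k, (if j = k then 0 else ENNReal.ofReal (C.F j k ^ s)) * ENNReal.ofReal (v a k)
        ≤ ∑' k, ENNReal.ofReal (b k) := by
          gcongr with k
          have : (if j = k then 0 else ENNReal.ofReal (C.F j k ^ s)) =
              ENNReal.ofReal (if j = k then 0 else C.F j k ^ s) := by
            split_ifs <;> simp
          rw [this, ← ENNReal.ofReal_mul]
          · exact ENNReal.ofReal_le_ofReal (hbk k)
          · split_ifs
            · exact le_rfl
            · exact hF0 j k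
      _ = ENNReal.ofReal S := by
          rw [← ENNReal.ofReal_tsum_of_nonneg hb0 hb.summable, hb.tsum_eq]
      _ ≤ ENNReal.ofReal (19 / 20 * v a j) := ENNReal.ofReal_le_ofReal hS
      _ = _ := ENNReal.ofReal_mul (by norm_num)
  · rw [← ENNReal.ofReal_one]
    exact (ENNReal.ofReal_lt_ofReal_iff one_pos).mpr (by norm_num)
  · exact ENNReal.ofReal_ne_top
  · have := hasSum_v a
    rw [← ENNReal.ofReal_tsum_of_nonneg (fun k => (hv0 k).le) this.summable]
    exact ENNReal.ofReal_ne_top

end Config

end Pool.Agent.H75.CE
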