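import Pool.Agent.H75.CE.Config

/-!
Words in the half-turns, ping-pong, freeness, infinite generation, discreteness.
-/

set_option autoImplicit false

open UpperHalfPlane Matrix
open scoped MatrixGroups Topology

noncomputable section

namespace Pool.Agent.H75.CE

@[simp]
theorem act_mk (g : SL(2, ℝ)) (z : ℍ) :
    act (QuotientGroup.mk g) z = g • z := rfl

theorem act_injective : Function.Injective act := by
  rw [injective_iff_map_eq_one]
  intro g hg
  induction g using QuotientGroup.induction_on with
  | H g =>
    rw [QuotientGroup.eq_one_iff]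
    have h1 : ∀ z : ℍ, g • z = z := fun z => by
      have := congrArg (fun e : Equiv.Perm ℍ => e z) hg
      simpa using this
    have h2 : ∀ z : ℍ, (Matrix.SpecialLinearGroup.mapGL ℝ g) • z = z := fun z => h1 z
    rw [forall_smul_eq_self_iff_mem_center] at h2
    rw [Subgroup.mem_center_iff] at h2 ⊢
    intro a
    have := h2 (Matrix.SpecialLinearGroup.mapGL ℝ a)
    rw [← map_mul, ← map_mul] at this
    exact Matrix.SpecialLinearGroup.mapGL_injective this

theorem act_mul (g h : PSL(2, ℝ)) (z : ℍ) : act (g * h) z = act g (act h z) := by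
  rw [map_mul]; rfl

theorem act_one (z : ℍ) : act 1 z = z := by
  rw [map_one]; rfl

theorem dist_act (g : PSL(2, ℝ)) (z w : ℍ) : dist (act g z) (act g w) = dist z w := by
  induction g using QuotientGroup.induction_on with
  | H g => exact dist_smul g z w

namespace Config

variable (C : Config)

/-- The half-turn as an element of `PSL(2,ℝ)`. -/
def τ (j : ℕ) : PSL(2, ℝ) := QuotientGroup.mk (C.t j)

variable {C}

@[simp]
theorem act_τ (j : ℕ) (z : ℍ) : act (C.τ j) z = C.t j • z := rfl

theorem τ_mul_self (j : ℕ) : C.τ j * C.τ j = 1 := by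
  apply act_injective
  ext z : 1
  rw [act_mul, act_τ, act_τ, tt, act_one]

theorem τ_inv (j : ℕ) : (C.τ j)⁻¹ = C.τ j := by
  rw [inv_eq_iff_mul_eq_one, τ_mul_self]

variable (C)

/-- The element represented by a word. -/
def P (L : List ℕ) : PSL(2, ℝ) := (L.map C.τ).prod

variable {C}

@[simp] theorem P_nil : C.P [] = 1 := rfl

@[simp] theorem P_cons (j : ℕ) (L : List ℕ) : C.P (j :: L) = C.τ j * C.P L := by
  simp [P]

theorem P_append (L M : List ℕ) : C.P (L ++ M) = C.P L * C.P M := by
  simp [P]

theorem P_inv (L : List ℕ) : (C.P L)⁻¹ = C.P L.reverse := by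
  induction L with
  | nil => simp
  | cons j L ih =>
    rw [P_cons, _root_.mul_inv_rev, ih, List.reverse_cons, P_append, τ_inv]
    simp

/-- Reduced words: no two adjacent letters are equal. -/
abbrev Red (L : List ℕ) : Prop := List.IsChain (· ≠ ·) L

theorem Red.tail {j : ℕ} {L : List ℕ} (h : Red (j :: L)) : Red L := by
  cases h with
  | singleton => exact List.IsChain.nil
  | cons_cons _ h => exact h

/-- Every word can be reduced, with the same parity of the length and no new letters. -/
theorem exists_red (L : List ℕ) :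
    ∃ L', Red L' ∧ C.P L' = C.P L ∧ (Even L'.length ↔ Even L.length) ∧ L' ⊆ L := by
  induction L with
  | nil => exact ⟨[], List.IsChain.nil, rfl, Iff.rfl, List.Subset.refl _⟩
  | cons j L ih =>
    obtain ⟨L', h1, h2, h3, h4⟩ := ih
    cases L' with
    | nil =>
      refine ⟨[j], List.IsChain.singleton _, ?_, ?_, ?_⟩
      · rw [P_cons, P_cons, ← h2]
      · simp only [List.length_cons, Nat.even_add_one]
        rw [← h3]
      · intro a ha
        simp at ha
        simp [ha]
    | cons k M =>
      by_cases hjk : j = k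
      · subst hjk
        refine ⟨M, h1.tail, ?_, ?_, ?_⟩
        · rw [P_cons, ← h2, P_cons, ← mul_assoc, τ_mul_self, one_mul]
        · simp only [List.length_cons, Nat.even_add_one] at h3 ⊢
          rw [← h3, not_not]
        · intro a ha
          have : a ∈ j :: M := List.mem_cons_of_mem _ ha
          exact List.mem_cons_of_mem _ (h4 this)
      · refine ⟨j :: k :: M, List.IsChain.cons_cons hjk h1, ?_, ?_, ?_⟩
        · rw [P_cons, h2, P_cons]
        · simp only [List.length_cons, Nat.even_add_one] at h3 ⊢
          rw [← h3]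
        · exact List.cons_subset_cons _ h4

/-- Ping-pong: a reduced nonempty word maps the fundamental domain into the closed disc of its
first letter. -/
theorem inC_P {j : ℕ} {L : List ℕ} (h : Red (j :: L)) {z : ℍ} (hz : z ∈ C.D) :
    C.inC j (act (C.P (j :: L)) z) := by
  induction L generalizing j with
  | nil =>
    rw [P_cons, act_mul, P_nil, act_one, act_τ, inC_t]
    exact hz j
  | cons k L ih =>
    rw [P_cons, act_mul, act_τ, inC_t]
    intro hj
    have h1 := ih h.tail
    cases h with
    | cons_cons hne _ => exact hne (eq_of_inC hj.inC h1)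

/-- Ping-pong for interior points. -/
theorem inO_P {j : ℕ} {L : List ℕ} (h : Red (j :: L)) {z : ℍ} (hz : ∀ l, ¬ C.inC l z) :
    C.inO j (act (C.P (j :: L)) z) := by
  induction L generalizing j with
  | nil =>
    rw [P_cons, act_mul, P_nil, act_one, act_τ, inO_t]
    exact hz j
  | cons k L ih =>
    rw [P_cons, act_mul, act_τ, inO_t]
    intro hj
    have h1 := ih h.tail
    cases h with
    | cons_cons hne _ => exact hne (eq_of_inC hj h1.inC)

/-- Reduced words are determined by the image of an interior point of the domain. -/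
theorem eq_of_act_P_eq {L M : List ℕ} (hL : Red L) (hM : Red M) {z : ℍ}
    (hz : ∀ l, ¬ C.inC l z) (h : act (C.P L) z = act (C.P M) z) : L = M := by
  induction L generalizing M with
  | nil =>
    cases M with
    | nil => rfl
    | cons k M =>
      have := inO_P hM hz
      rw [← h, P_nil, act_one] at this
      exact absurd this.inC (hz k)
  | cons j L ih =>
    cases M with
    | nil =>
      have := inO_P hL hz
      rw [h, P_nil, act_one] at this
      exact absurd this.inC (hz j)
    | cons k M =>
      have h1 := inO_P hL hz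
      have h2 := inO_P hM hz
      rw [← h] at h2
      have hjk := eq_of_inC h1.inC h2.inC
      subst hjk
      rw [P_cons, P_cons, act_mul, act_mul] at h
      have h3 := (act (C.τ j)).injective h
      rw [ih hL.tail hM.tail h3]

variable (C)

/-- The group of even words. -/
def G : Subgroup PSL(2, ℝ) :=
  Subgroup.closure (Set.range fun p : ℕ × ℕ => C.τ p.1 * C.τ p.2)

variable {C}

theorem even_mem_G {L : List ℕ} (hL : Even L.length) : C.P L ∈ C.G := by
  obtain ⟨n, hn⟩ := hL
  induction n generalizing L with
  | zero =>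
    have : L = [] := by
      apply List.eq_nil_of_length_eq_zero; omega
    subst this
    exact C.G.one_mem
  | succ n ih =>
    match L, hn with
    | [], hn => simp at hn
    | [a], hn => simp at hn; omega
    | a :: b :: M, hn =>
      rw [P_cons, P_cons, ← mul_assoc]
      apply C.G.mul_mem
      · exact Subgroup.subset_closure ⟨(a, b), rfl⟩
      · apply ih
        simp only [List.length_cons] at hn
        omega

theorem mem_G_iff {g : PSL(2, ℝ)} : g ∈ C.G ↔ ∃ L, Even L.length ∧ C.P L = g := by
  constructor
  · intro h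
    induction h using Subgroup.closure_induction with
    | mem x hx =>
      obtain ⟨⟨a, b⟩, rfl⟩ := hx
      exact ⟨[a, b], by simp, by simp⟩
    | one => exact ⟨[], by simp, rfl⟩
    | mul x y _ _ hx hy =>
      obtain ⟨L, hL, rfl⟩ := hx
      obtain ⟨M, hM, rfl⟩ := hy
      exact ⟨L ++ M, by rw [List.length_append]; exact hL.add hM, P_append _ _⟩
    | inv x _ hx =>
      obtain ⟨L, hL, rfl⟩ := hx
      exact ⟨L.reverse, by simpa using hL, (P_inv L).symm⟩
  · rintro ⟨L, hL, rfl⟩
    exact even_mem_G hL

theorem mem_G_iff_red {g : PSL(2, ℝ)} : g ∈ C.G ↔ ∃ L, Red L ∧ Even L.length ∧ C.P L = g := by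
  rw [mem_G_iff]
  constructor
  · rintro ⟨L, hL, rfl⟩
    obtain ⟨L', h1, h2, h3, -⟩ := exists_red (C := C) L
    exact ⟨L', h1, h3.mpr hL, h2⟩
  · rintro ⟨L, -, h2, h3⟩
    exact ⟨L, h2, h3⟩

/-- An even reduced word fixing a point of the fundamental domain is trivial. -/
theorem eq_nil_of_fix {L : List ℕ} (hL : Red L) (he : Even L.length) {z : ℍ} (hz : z ∈ C.D)
    (h : act (C.P L) z = z) : L = [] := by
  match L, hL, he, h with
  | [], _, _, _ => rfl
  | [j], _, he, _ => simp at he
  | j :: k :: M, hL, _, h =>
    exfalso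
    have h1 := inC_P hL hz
    rw [h] at h1
    have hjk : j ≠ k := by
      cases hL with
      | cons_cons hne _ => exact hne
    have h2 : C.inC j (C.t j • z) := by
      rw [inC_t]; exact hz j
    have h3 := inC_P hL.tail hz
    rw [P_cons, act_mul, act_τ] at h
    have h4 : act (C.P (k :: M)) z = C.t j • z := by
      rw [← h, tt, h]
    rw [h4] at h3
    exact hjk (eq_of_inC h2 h3)

/-- The group of even words acts freely. -/
theorem G_free {g : PSL(2, ℝ)} (hg : g ∈ C.G) {z : ℍ} (h : act g z = z) : g = 1 := by
  induction z using C.wf.induction generalizing g with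
  | _ z ih =>
    by_cases hz : z ∈ C.D
    · obtain ⟨L, h1, h2, rfl⟩ := mem_G_iff_red.mp hg
      rw [eq_nil_of_fix h1 h2 hz h, P_nil]
    · simp only [D, Set.mem_ofPred_eq, not_forall, not_not] at hz
      obtain ⟨j, hj⟩ := hz
      have h1 : C.τ j * g * C.τ j ∈ C.G := by
        obtain ⟨L, h1, rfl⟩ := mem_G_iff.mp hg
        rw [mem_G_iff]
        refine ⟨j :: (L ++ [j]), ?_, ?_⟩
        · simp only [List.length_cons, List.length_append, List.length_nil]
          rw [show L.length + (0 + 1) + 1 = L.length + 2 by ring]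
          exact h1.add (by decide)
        · rw [P_cons, P_append]; simp [mul_assoc]
      have h2 : act (C.τ j * g * C.τ j) (C.t j • z) = C.t j • z := by
        rw [act_mul, act_mul, act_τ, act_τ, tt, h]
      have h3 := ih (C.t j • z) ⟨j, hj, rfl⟩ h1 h2
      have h4 : g = C.τ j * (C.τ j * g * C.τ j) * C.τ j := by
        have := τ_mul_self (C := C) j
        calc g = (C.τ j * C.τ j) * g * (C.τ j * C.τ j) := by rw [this]; simp
          _ = _ := by group
      rw [h4, h3, mul_one, τ_mul_self]

/-- The group of even words is not finitely generated. -/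
theorem G_not_fg {z0 : ℍ} (hz0 : ∀ l, ¬ C.inC l z0) : ¬ C.G.FG := by
  rintro ⟨S, hS⟩
  have h1 : ∀ g ∈ S, ∃ L, C.P L = g := by
    intro g hg
    have : g ∈ C.G := by rw [← hS]; exact Subgroup.subset_closure hg
    obtain ⟨L, -, h⟩ := mem_G_iff.mp this
    exact ⟨L, h⟩
  choose! Lf hLf using h1
  -- a bound for all the letters
  obtain ⟨n, hn⟩ : ∃ n : ℕ, ∀ g ∈ S, ∀ a ∈ Lf g, a < n := by
    refine ⟨S.sup (fun g => (Lf g).sum) + 1, fun g hg a ha => ?_⟩
    have h1 : a ≤ (Lf g).sum := List.single_le_sum (by simp) _ ha
    have h2 : (Lf g).sum ≤ S.sup (fun g => (Lf g).sum) :=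
      Finset.le_sup (f := fun g => (Lf g).sum) hg
    omega
  have h2 : ∀ g ∈ C.G, ∃ L, (∀ a ∈ L, a < n) ∧ C.P L = g := by
    intro g hg
    rw [← hS] at hg
    induction hg using Subgroup.closure_induction with
    | mem x hx => exact ⟨Lf x, hn x hx, hLf x hx⟩
    | one => exact ⟨[], by simp, rfl⟩
    | mul x y _ _ hx hy =>
      obtain ⟨L, hL, rfl⟩ := hx
      obtain ⟨M, hM, rfl⟩ := hy
      refine ⟨L ++ M, fun a ha => ?_, P_append _ _⟩
      rcases List.mem_append.mp ha with h | h
      · exact hL a h
      · exact hM a h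
    | inv x _ hx =>
      obtain ⟨L, hL, rfl⟩ := hx
      exact ⟨L.reverse, fun a ha => hL a (List.mem_reverse.mp ha), (P_inv L).symm⟩
  obtain ⟨L, hL, hLe⟩ := h2 (C.P [n, n + 1]) (even_mem_G (by simp))
  obtain ⟨L', h3, h4, -, h5⟩ := exists_red (C := C) L
  have h6 : L' = [n, n + 1] := by
    apply eq_of_act_P_eq (C := C) h3 _ hz0
    · rw [h4, hLe]
    · exact List.IsChain.cons_cons (by omega) (List.IsChain.singleton _)
  have h7 : n ∈ L := h5 (by rw [h6]; simp)
  exact absurd (hL n h7) (lt_irrefl n)

/-- If all radii are at most `1/2`, the group of even words is discrete. -/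
theorem G_fuchsian (hr : ∀ j, C.r j ≤ 1 / 2) : IsFuchsian C.G := by
  have hI : ∀ l, ¬ C.inC l UpperHalfPlane.I := by
    intro l hl
    have := im_le_of_inC hl
    have := hr l
    simp at *
    linarith
  apply discreteTopology_of_isOpen_singleton_one
  have hcont : Continuous fun g : PSL(2, ℝ) => (act g UpperHalfPlane.I).im := by
    have : Continuous fun g : SL(2, ℝ) => (g • UpperHalfPlane.I).im :=
      UpperHalfPlane.continuous_im.comp (by fun_prop)
    exact (QuotientGroup.isQuotientMap_mk _).continuous_iff.mpr this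
  have hopen : IsOpen {g : PSL(2, ℝ) | 1 / 2 < (act g UpperHalfPlane.I).im} :=
    isOpen_lt continuous_const hcont
  have hset : ({1} : Set C.G) = Subtype.val ⁻¹' {g : PSL(2, ℝ) | 1 / 2 < (act g UpperHalfPlane.I).im} := by
    ext g
    constructor
    · rintro rfl
      show (1 : ℝ) / 2 < (act 1 UpperHalfPlane.I).im
      rw [act_one]
      simp
      norm_num
    · intro hg
      obtain ⟨g, hgG⟩ := g
      obtain ⟨L, h1, h2, rfl⟩ := mem_G_iff_red.mp hgG
      cases L with
      | nil => rfl
      | cons j L =>
        have h3 := im_lt_of_inO (inO_P h1 hI)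
        have h4 := hr j
        simp only [Set.mem_preimage, Set.mem_ofPred_eq] at hg
        linarith
  rw [hset]
  exact hopen.preimage continuous_subtype_val

end Config

end Pool.Agent.H75.CE
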